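import Mathlib
import Pool.Agent.H99.HM.Targets

/-! # MP_6a9259_mp, module BALL -/

set_option autoImplicit false

namespace Pool.Agent.H41.HM

open MeasureTheory Set Filter Topology Real Pool.Agent.H99.HM
open scoped ENNReal

abbrev E2 : Type := EuclideanSpace ℝ (Fin 2)

theorem lint_slice (G : ℝ → ℝ → ℝ≥0∞) (hG : Measurable (Function.uncurry G)) :
    ∫⁻ y : E3, G (y 0) (y 1 ^ 2 + y 2 ^ 2) = ∫⁻ z : ℝ, ∫⁻ w : E2, G z (‖w‖ ^ 2) := by
  have h1 : ∫⁻ y : E3, G (y 0) (y 1 ^ 2 + y 2 ^ 2) =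
      ∫⁻ v : Fin 3 → ℝ, G (v 0) (v 1 ^ 2 + v 2 ^ 2) := by
    refine (PiLp.volume_preserving_ofLp (Fin 3)).lintegral_comp
      (f := fun v : Fin 3 → ℝ => G (v 0) (v 1 ^ 2 + v 2 ^ 2)) ?_
    exact hG.comp (by fun_prop : Measurable fun v : Fin 3 → ℝ => (v 0, v 1 ^ 2 + v 2 ^ 2))
  have h2 : ∫⁻ v : Fin 3 → ℝ, G (v 0) (v 1 ^ 2 + v 2 ^ 2) =
      ∫⁻ p : ℝ × (Fin 2 → ℝ), G p.1 (p.2 0 ^ 2 + p.2 1 ^ 2) := by
    refine (volume_preserving_piFinSuccAbove (fun _ : Fin 3 => ℝ) 0).lintegral_comp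
      (f := fun p : ℝ × (Fin 2 → ℝ) => G p.1 (p.2 0 ^ 2 + p.2 1 ^ 2)) ?_
    exact hG.comp (by fun_prop :
      Measurable fun p : ℝ × (Fin 2 → ℝ) => (p.1, p.2 0 ^ 2 + p.2 1 ^ 2))
  have h3 : ∫⁻ p : ℝ × (Fin 2 → ℝ), G p.1 (p.2 0 ^ 2 + p.2 1 ^ 2) =
      ∫⁻ z : ℝ, ∫⁻ w : Fin 2 → ℝ, G z (w 0 ^ 2 + w 1 ^ 2) := by
    refine lintegral_prod _ (Measurable.aemeasurable ?_)
    exact hG.comp (by fun_prop :
      Measurable fun p : ℝ × (Fin 2 → ℝ) => (p.1, p.2 0 ^ 2 + p.2 1 ^ 2))
  rw [h1, h2, h3]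
  refine lintegral_congr fun z => ?_
  have h4 : ∫⁻ w : E2, G z (w 0 ^ 2 + w 1 ^ 2) = ∫⁻ w : Fin 2 → ℝ, G z (w 0 ^ 2 + w 1 ^ 2) := by
    refine (PiLp.volume_preserving_ofLp (Fin 2)).lintegral_comp
      (f := fun v : Fin 2 → ℝ => G z (v 0 ^ 2 + v 1 ^ 2)) ?_
    exact hG.comp (by fun_prop : Measurable fun v : Fin 2 → ℝ => (z, v 0 ^ 2 + v 1 ^ 2))
  rw [← h4]
  refine lintegral_congr fun w => ?_
  rw [EuclideanSpace.real_norm_sq_eq, Fin.sum_univ_two]

/-- the radial profile of the inner integral -/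
noncomputable def fin (A B ρ : ℝ) : ℝ := if ρ ^ 2 < B then 1 / √(A + ρ ^ 2) else 0

theorem fin_nonneg (A B ρ : ℝ) : 0 ≤ fin A B ρ := by
  unfold fin
  split_ifs <;> positivity

theorem inner_int {A B : ℝ} (hA : 0 < A) :
    ∫⁻ w : E2, ENNReal.ofReal (fin A B ‖w‖) =
      ENNReal.ofReal (if 0 < B then 2 * π * (√(A + B) - √A) else 0) := by
  have hfr : Module.finrank ℝ E2 = 2 := finrank_euclideanSpace_fin
  by_cases hB : 0 < B
  · rw [if_pos hB]
    have hsB : 0 < √B := Real.sqrt_pos.mpr hB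
    have hind : ∀ ρ ∈ Ioi (0 : ℝ), ρ ^ (Module.finrank ℝ E2 - 1) • fin A B ρ =
        (Iio (√B)).indicator (fun ρ => ρ / √(A + ρ ^ 2)) ρ := by
      intro ρ hρ
      have hρ0 : 0 < ρ := hρ
      rw [hfr]
      unfold fin
      by_cases h : ρ < √B
      · rw [indicator_of_mem (show ρ ∈ Iio (√B) from h), if_pos ((Real.lt_sqrt hρ0.le).mp h)]
        simp [div_eq_mul_inv]
      · rw [indicator_of_notMem (show ρ ∉ Iio (√B) from h), if_neg]
        · simp
        · intro h'
          exact h ((Real.lt_sqrt hρ0.le).mpr h')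
    have hder : ∀ ρ : ℝ, HasDerivAt (fun ρ => √(A + ρ ^ 2)) (ρ / √(A + ρ ^ 2)) ρ := by
      intro ρ
      have h0 : A + ρ ^ 2 ≠ 0 := by positivity
      have h1 : HasDerivAt (fun ρ : ℝ => A + ρ ^ 2) (2 * ρ) ρ := by
        have := (hasDerivAt_pow 2 ρ).const_add A
        simpa using this
      refine HasDerivAt.congr_deriv (h1.sqrt h0) ?_
      field_simp
    have hcont : Continuous (fun ρ : ℝ => ρ / √(A + ρ ^ 2)) := by
      refine continuous_id.div (by fun_prop) fun ρ => ?_
      have : 0 < A + ρ ^ 2 := by positivity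
      exact (Real.sqrt_pos.mpr this).ne'
    have hIoo : Iio (√B) ∩ Ioi 0 = Ioo 0 (√B) := by ext y; simp [and_comm]
    have hint1 : IntegrableOn (fun ρ : ℝ => ρ / √(A + ρ ^ 2)) (Ioo 0 (√B)) :=
      (hcont.integrableOn_Icc (a := 0) (b := √B)).mono_set Ioo_subset_Icc_self
    have hint : Integrable (fun w : E2 => fin A B ‖w‖) := by
      rw [integrable_fun_norm_addHaar (E := E2) volume (f := fin A B),
        integrableOn_congr_fun hind measurableSet_Ioi, IntegrableOn,
        integrable_indicator_iff measurableSet_Iio, IntegrableOn,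
        Measure.restrict_restrict measurableSet_Iio, hIoo]
      exact hint1
    have hval : ∫ w : E2, fin A B ‖w‖ = 2 * π * (√(A + B) - √A) := by
      rw [integral_fun_norm_addHaar (E := E2) volume (fin A B),
        setIntegral_congr_fun measurableSet_Ioi hind, integral_indicator measurableSet_Iio,
        Measure.restrict_restrict measurableSet_Iio, hIoo, ← integral_Ioc_eq_integral_Ioo,
        ← intervalIntegral.integral_of_le hsB.le,
        intervalIntegral.integral_eq_sub_of_hasDerivAt (fun ρ _ => hder ρ)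
          (hcont.intervalIntegrable _ _), Real.sq_sqrt hB.le]
      rw [Measure.real, EuclideanSpace.volume_ball_fin_two, hfr]
      rw [ENNReal.ofReal_one, one_pow, one_mul, ENNReal.toReal_ofReal pi_pos.le]
      simp
      ring
    rw [← hval]
    exact (ofReal_integral_eq_lintegral_ofReal hint
      (Eventually.of_forall fun w => fin_nonneg _ _ _)).symm
  · rw [if_neg hB]
    have : ∀ w : E2, fin A B ‖w‖ = 0 := by
      intro w
      unfold fin
      rw [if_neg]
      have := sq_nonneg ‖w‖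
      linarith [not_lt.mp hB]
    simp [this]

/-- the value -/
noncomputable def Vb (X R : ℝ) : ℝ :=
  if R ≤ X then 4 * π * R ^ 3 / (3 * X) else 2 * π * R ^ 2 - 2 * π / 3 * X ^ 2

theorem int_abs {X R : ℝ} (hX : 0 ≤ X) (hR : 0 < R) :
    ∫ z in (-R)..R, |X - z| = if R ≤ X then 2 * R * X else X ^ 2 + R ^ 2 := by
  have key : ∀ a b : ℝ, ∫ z in a..b, (X - z) = ((X - a) ^ 2 - (X - b) ^ 2) / 2 := by
    intro a b
    have hd : ∀ z : ℝ, HasDerivAt (fun z => -(X - z) ^ 2 / 2) (X - z) z := by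
      intro z
      have h1 : HasDerivAt (fun z : ℝ => X - z) (-1) z := (hasDerivAt_id z).const_sub X
      refine HasDerivAt.congr_deriv (((h1.pow 2).neg).div_const 2) ?_
      simp
    rw [intervalIntegral.integral_eq_sub_of_hasDerivAt (fun z _ => hd z)
      ((continuous_const.sub continuous_id).intervalIntegrable _ _)]
    ring
  split_ifs with h
  · have h1 : ∫ z in (-R)..R, |X - z| = ∫ z in (-R)..R, (X - z) := by
      refine intervalIntegral.integral_congr fun z hz => ?_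
      rw [uIcc_of_le (by linarith)] at hz
      exact abs_of_nonneg (by linarith [hz.2])
    rw [h1, key]
    ring
  · push Not at h
    have hint : ∀ a b : ℝ, IntervalIntegrable (fun z => |X - z|) volume a b := fun a b =>
      (by fun_prop : Continuous fun z : ℝ => |X - z|).intervalIntegrable _ _
    rw [← intervalIntegral.integral_add_adjacent_intervals (hint (-R) X) (hint X R)]
    have h1 : ∫ z in (-R)..X, |X - z| = ∫ z in (-R)..X, (X - z) := by
      refine intervalIntegral.integral_congr fun z hz => ?_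
      rw [uIcc_of_le (by linarith)] at hz
      exact abs_of_nonneg (by linarith [hz.2])
    have h2 : ∫ z in X..R, |X - z| = ∫ z in X..R, -(X - z) := by
      refine intervalIntegral.integral_congr fun z hz => ?_
      rw [uIcc_of_le h.le] at hz
      exact abs_of_nonpos (by linarith [hz.1])
    rw [h1, h2, intervalIntegral.integral_neg, key, key]
    ring

theorem int_sqrt {X R : ℝ} (hX : 0 ≤ X) (hR : 0 < R) :
    ∫ z in (-R)..R, √(X ^ 2 - 2 * X * z + R ^ 2) =
      if R ≤ X then 2 * R * X + 2 * R ^ 3 / (3 * X) else 2 * R ^ 2 + 2 * X ^ 2 / 3 := by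
  rcases hX.eq_or_lt with h0 | h0
  · subst h0
    rw [if_neg (by linarith)]
    have h1 : ∀ z : ℝ, √(0 ^ 2 - 2 * 0 * z + R ^ 2) = R := by
      intro z
      have : (0 : ℝ) ^ 2 - 2 * 0 * z + R ^ 2 = R ^ 2 := by ring
      rw [this, Real.sqrt_sq hR.le]
    simp only [h1]
    rw [intervalIntegral.integral_const, smul_eq_mul]
    ring
  · have hcont : Continuous fun z : ℝ => X ^ 2 - 2 * X * z + R ^ 2 := by fun_prop
    have hd : ∀ z ∈ Ioo (-R) R, HasDerivAt
        (fun z => -(1 / (3 * X)) * ((X ^ 2 - 2 * X * z + R ^ 2) * √(X ^ 2 - 2 * X * z + R ^ 2)))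
        (√(X ^ 2 - 2 * X * z + R ^ 2)) z := by
      intro z hz
      have hpos : 0 < X ^ 2 - 2 * X * z + R ^ 2 := by
        have h1 : X * z < X * R := mul_lt_mul_of_pos_left hz.2 h0
        nlinarith [sq_nonneg (X - R)]
      have h1 : HasDerivAt (fun z : ℝ => X ^ 2 - 2 * X * z + R ^ 2) (-(2 * X)) z := by
        have := (((hasDerivAt_id z).const_mul (2 * X)).const_sub (X ^ 2)).add_const (R ^ 2)
        simpa using this
      have h2 := (h1.mul (h1.sqrt hpos.ne')).const_mul (-(1 / (3 * X)))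
      refine HasDerivAt.congr_deriv h2 ?_
      have h3 := Real.sqrt_pos.mpr hpos
      have h4 := Real.mul_self_sqrt hpos.le
      set q := √(X ^ 2 - 2 * X * z + R ^ 2) with hq
      rw [← h4]
      field_simp
      ring
    rw [intervalIntegral.integral_eq_sub_of_hasDerivAt_of_le (by linarith)
      (by
        refine ContinuousOn.mul continuousOn_const (ContinuousOn.mul hcont.continuousOn ?_)
        exact (hcont.sqrt).continuousOn) hd (hcont.sqrt.intervalIntegrable _ _)]
    have e1 : X ^ 2 - 2 * X * R + R ^ 2 = (X - R) ^ 2 := by ring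
    have e2 : X ^ 2 - 2 * X * -R + R ^ 2 = (X + R) ^ 2 := by ring
    rw [e1, e2, Real.sqrt_sq_eq_abs, Real.sqrt_sq (by linarith)]
    split_ifs with h
    · rw [abs_of_nonneg (by linarith)]
      field_simp
      ring
    · rw [abs_of_neg (by linarith [not_le.mp h])]
      field_simp
      ring

theorem outer_int {X R : ℝ} (hX : 0 ≤ X) (hR : 0 < R) :
    ∫ z in (-R)..R, 2 * π * (√(X ^ 2 - 2 * X * z + R ^ 2) - |X - z|) = Vb X R := by
  rw [intervalIntegral.integral_const_mul, intervalIntegral.integral_sub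
    ((by fun_prop : Continuous fun z : ℝ => √(X ^ 2 - 2 * X * z + R ^ 2)).intervalIntegrable _ _)
    ((by fun_prop : Continuous fun z : ℝ => |X - z|).intervalIntegrable _ _),
    int_abs hX hR, int_sqrt hX hR]
  unfold Vb
  split_ifs with h
  · have : 0 < X := by linarith
    field_simp
    ring
  · ring

/-- the statement for points on the first axis -/
theorem axis_lint {X R : ℝ} (hX : 0 ≤ X) (hR : 0 < R) :
    ∫⁻ y in Metric.ball (0 : E3) R,
      ENNReal.ofReal (1 / ‖X • (EuclideanSpace.single (0 : Fin 3) (1 : ℝ) : E3) - y‖) =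
      ENNReal.ofReal (Vb X R) := by
  -- rewrite as a function of `y 0` and `y 1 ^ 2 + y 2 ^ 2`
  let G : ℝ → ℝ → ℝ≥0∞ := fun z q =>
    ENNReal.ofReal (if z ^ 2 + q < R ^ 2 then 1 / √((X - z) ^ 2 + q) else 0)
  have hG : Measurable (Function.uncurry G) := by
    refine ENNReal.measurable_ofReal.comp (Measurable.ite ?_ ?_ measurable_const)
    · exact measurableSet_lt (by fun_prop) measurable_const
    · fun_prop
  have hy : ∀ y : E3, (Metric.ball (0 : E3) R).indicator (fun y : E3 =>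
      ENNReal.ofReal (1 / ‖X • (EuclideanSpace.single (0 : Fin 3) (1 : ℝ) : E3) - y‖)) y =
      G (y 0) (y 1 ^ 2 + y 2 ^ 2) := by
    intro y
    have hn : ‖y‖ ^ 2 = y 0 ^ 2 + (y 1 ^ 2 + y 2 ^ 2) := by
      rw [EuclideanSpace.real_norm_sq_eq, Fin.sum_univ_three]
      ring
    have hd : ‖X • (EuclideanSpace.single (0 : Fin 3) (1 : ℝ) : E3) - y‖ =
        √((X - y 0) ^ 2 + (y 1 ^ 2 + y 2 ^ 2)) := by
      rw [EuclideanSpace.norm_eq, Fin.sum_univ_three]
      simp only [PiLp.sub_apply, PiLp.smul_apply, PiLp.single_apply, Real.norm_eq_abs,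
        sq_abs, smul_eq_mul]
      congr 1
      simp
      ring
    have hmem : y ∈ Metric.ball (0 : E3) R ↔ y 0 ^ 2 + (y 1 ^ 2 + y 2 ^ 2) < R ^ 2 := by
      rw [mem_ball_zero_iff, ← hn, sq_lt_sq₀ (norm_nonneg _) hR.le]
    simp only [G]
    by_cases h : y ∈ Metric.ball (0 : E3) R
    · rw [indicator_of_mem h, if_pos (hmem.mp h), hd]
    · rw [indicator_of_notMem h, if_neg (fun h' => h (hmem.mpr h')), ENNReal.ofReal_zero]
  rw [← lintegral_indicator measurableSet_ball, lintegral_congr hy, lint_slice G hG]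
  -- the inner integrals
  have hin : ∀ z : ℝ, z ≠ X → ∫⁻ w : E2, G z (‖w‖ ^ 2) =
      (Ioo (-R) R).indicator (fun z => ENNReal.ofReal
        (2 * π * (√(X ^ 2 - 2 * X * z + R ^ 2) - |X - z|))) z := by
    intro z hz
    have hA : 0 < (X - z) ^ 2 := by
      have : X - z ≠ 0 := sub_ne_zero.mpr (Ne.symm hz)
      positivity
    have h1 : ∀ w : E2, G z (‖w‖ ^ 2) =
        ENNReal.ofReal (fin ((X - z) ^ 2) (R ^ 2 - z ^ 2) ‖w‖) := by
      intro w
      simp only [G, fin]
      congr 1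
      by_cases h : z ^ 2 + ‖w‖ ^ 2 < R ^ 2
      · rw [if_pos h, if_pos (by linarith)]
      · rw [if_neg h, if_neg (by linarith)]
    rw [lintegral_congr h1, inner_int hA]
    by_cases h : z ∈ Ioo (-R) R
    · have h2 : 0 < R ^ 2 - z ^ 2 := by nlinarith [h.1, h.2]
      have h3 : (X - z) ^ 2 + (R ^ 2 - z ^ 2) = X ^ 2 - 2 * X * z + R ^ 2 := by ring
      rw [indicator_of_mem h, if_pos h2, Real.sqrt_sq_eq_abs, h3]
    · have h2 : ¬ 0 < R ^ 2 - z ^ 2 := by
        intro h2
        have h3 : |z| < R := abs_lt_of_sq_lt_sq (by linarith) hR.le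
        exact h (abs_lt.mp h3)
      rw [indicator_of_notMem h, if_neg h2, ENNReal.ofReal_zero]
  have hae : ∀ᵐ z : ℝ, ∫⁻ w : E2, G z (‖w‖ ^ 2) =
      (Ioo (-R) R).indicator (fun z => ENNReal.ofReal
        (2 * π * (√(X ^ 2 - 2 * X * z + R ^ 2) - |X - z|))) z := by
    have : ∀ᵐ z : ℝ, z ≠ X := by
      rw [ae_iff]
      simp
    filter_upwards [this] with z hz
    exact hin z hz
  rw [lintegral_congr_ae hae, lintegral_indicator measurableSet_Ioo, ← outer_int hX hR,
    intervalIntegral.integral_of_le (by linarith), integral_Ioc_eq_integral_Ioo]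
  have hcont : Continuous fun z : ℝ => 2 * π * (√(X ^ 2 - 2 * X * z + R ^ 2) - |X - z|) := by
    fun_prop
  refine (ofReal_integral_eq_lintegral_ofReal
    ((hcont.integrableOn_Icc (a := -R) (b := R)).mono_set Ioo_subset_Icc_self) ?_).symm
  refine (ae_restrict_iff' measurableSet_Ioo).mpr (Eventually.of_forall fun z hz => ?_)
  have h1 : |X - z| ≤ √(X ^ 2 - 2 * X * z + R ^ 2) := by
    rw [← Real.sqrt_sq_eq_abs]
    apply Real.sqrt_le_sqrt
    nlinarith [hz.1, hz.2]
  have : 0 ≤ √(X ^ 2 - 2 * X * z + R ^ 2) - |X - z| := by linarith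
  simp only [Pi.zero_apply]
  positivity

theorem ball_lint (x : E3) {R : ℝ} (hR : 0 < R) :
    ∫⁻ y in Metric.ball (0 : E3) R, ENNReal.ofReal (1 / ‖x - y‖) =
      ENNReal.ofReal (Vb ‖x‖ R) := by
  set e : E3 := EuclideanSpace.single (0 : Fin 3) (1 : ℝ) with he
  have hne : ‖x‖ = ‖‖x‖ • e‖ := by
    rw [norm_smul, norm_norm, he, PiLp.norm_single]
    simp
  let A : E3 ≃ₗᵢ[ℝ] E3 := (Submodule.reflection (Submodule.span ℝ {x - ‖x‖ • e})ᗮ)
  have hA : A x = ‖x‖ • e := Submodule.reflection_sub hne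
  rw [← axis_lint (norm_nonneg x) hR]
  have hmp : MeasurePreserving A := A.measurePreserving
  have h1 : ∀ y, (Metric.ball (0 : E3) R).indicator (fun y => ENNReal.ofReal (1 / ‖x - y‖)) y =
      (Metric.ball (0 : E3) R).indicator (fun y => ENNReal.ofReal (1 / ‖‖x‖ • e - y‖)) (A y) := by
    intro y
    have h2 : A y ∈ Metric.ball (0 : E3) R ↔ y ∈ Metric.ball (0 : E3) R := by
      rw [mem_ball_zero_iff, mem_ball_zero_iff, A.norm_map]
    by_cases h : y ∈ Metric.ball (0 : E3) R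
    · rw [indicator_of_mem h, indicator_of_mem (h2.mpr h), ← hA, ← map_sub, A.norm_map]
    · rw [indicator_of_notMem h, indicator_of_notMem (fun h' => h (h2.mp h'))]
  rw [← lintegral_indicator measurableSet_ball, ← lintegral_indicator measurableSet_ball,
    lintegral_congr h1]
  refine hmp.lintegral_comp (f := (Metric.ball (0 : E3) R).indicator
    (fun y => ENNReal.ofReal (1 / ‖‖x‖ • e - y‖))) ?_
  refine Measurable.indicator ?_ measurableSet_ball
  fun_prop

theorem ball : T_ball := by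
  intro x R hR
  have h1 := ball_lint x hR
  have hmeas : AEStronglyMeasurable (fun y : E3 => 1 / ‖x - y‖)
      (volume.restrict (Metric.ball 0 R)) := by
    have : Measurable (fun y : E3 => 1 / ‖x - y‖) := by fun_prop
    exact this.aestronglyMeasurable
  have hnn : 0 ≤ᵐ[volume.restrict (Metric.ball (0 : E3) R)] fun y : E3 => 1 / ‖x - y‖ :=
    Eventually.of_forall fun y => by simp only [Pi.zero_apply]; positivity
  have hV : 0 ≤ Vb ‖x‖ R := by
    unfold Vb
    split_ifs with h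
    · positivity
    · have h2 := not_le.mp h
      have h3 : ‖x‖ ^ 2 ≤ R ^ 2 := by gcongr
      have h4 := mul_le_mul_of_nonneg_left h3 (by positivity : 0 ≤ 2 * π / 3)
      nlinarith [Real.pi_pos, sq_nonneg R, mul_nonneg Real.pi_pos.le (sq_nonneg R)]
  refine ⟨⟨hmeas, ?_⟩, ?_⟩
  · rw [hasFiniteIntegral_iff_ofReal hnn, h1]
    exact ENNReal.ofReal_lt_top
  · rw [integral_eq_lintegral_of_nonneg_ae hnn hmeas, h1, ENNReal.toReal_ofReal hV]
    rfl

end Pool.Agent.H41.HM
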