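import Mathlib
import Pool.Agent.H99.HM.Targets

/-! # MP_6a9259_mp, module DOM -/

set_option autoImplicit false

namespace Pool.Agent.H41.HM

open MeasureTheory Set Filter Topology Real Pool.Agent.H99.HM

theorem dom_aux (x : ℝ) (F : ℝ → ℝ) (C : ℝ) (hx : 0 ≤ x)
    (hF : AEStronglyMeasurable F (volume.restrict (Ioi 0)))
    (h1 : ∀ t ∈ Ioc (0 : ℝ) 1, |F t| ≤ C * t ^ 3) (h2 : ∀ t, 1 ≤ t → |F t| ≤ C) (k : ℕ)
    (hk2 : 2 ≤ k) (hk3 : k ≤ 3) : IntegrableOn (fun t => F t / (x + t) ^ k) (Ioi 0) := by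
  have hC : 0 ≤ C := (abs_nonneg _).trans (h2 1 le_rfl)
  have hmeas : AEStronglyMeasurable (fun t => F t / (x + t) ^ k) (volume.restrict (Ioi 0)) := by
    exact (hF.aemeasurable.div
      (by fun_prop : Measurable fun t : ℝ => (x + t) ^ k).aemeasurable).aestronglyMeasurable
  rw [← Ioc_union_Ioi_eq_Ioi (zero_le_one : (0 : ℝ) ≤ 1)]
  refine IntegrableOn.union ?_ ?_
  · have hint : IntegrableOn (fun _ : ℝ => C) (Ioc 0 1) := integrableOn_const (by simp)
    refine Integrable.mono' hint (hmeas.mono_measure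
      (Measure.restrict_mono Ioc_subset_Ioi_self le_rfl)) ?_
    refine (ae_restrict_iff' measurableSet_Ioc).mpr (Eventually.of_forall fun t ht => ?_)
    have ht0 : 0 < t := ht.1
    rw [norm_div, Real.norm_eq_abs, norm_pow, Real.norm_of_nonneg (by linarith : 0 ≤ x + t)]
    rw [div_le_iff₀ (by positivity)]
    have h3 : t ^ 3 ≤ (x + t) ^ k := by
      calc t ^ 3 ≤ t ^ k := pow_le_pow_of_le_one ht0.le ht.2 hk3
        _ ≤ (x + t) ^ k := by gcongr; linarith
    calc |F t| ≤ C * t ^ 3 := h1 t ht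
      _ ≤ C * (x + t) ^ k := by gcongr
  · have hint : IntegrableOn (fun t : ℝ => C * t ^ (-2 : ℝ)) (Ioi 1) :=
      (integrableOn_Ioi_rpow_of_lt (by norm_num) one_pos).const_mul C
    refine Integrable.mono' hint (hmeas.mono_measure
      (Measure.restrict_mono (Ioi_subset_Ioi zero_le_one) le_rfl)) ?_
    refine (ae_restrict_iff' measurableSet_Ioi).mpr (Eventually.of_forall fun t ht => ?_)
    have ht1 : 1 < t := ht
    have ht0 : 0 < t := by linarith
    rw [norm_div, Real.norm_eq_abs, norm_pow, Real.norm_of_nonneg (by linarith : 0 ≤ x + t)]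
    rw [div_le_iff₀ (by positivity)]
    have h3 : t ^ (2 : ℕ) ≤ (x + t) ^ k := by
      calc t ^ 2 ≤ t ^ k := pow_le_pow_right₀ ht1.le hk2
        _ ≤ (x + t) ^ k := by gcongr; linarith
    have h4 : t ^ (-2 : ℝ) * t ^ (2 : ℕ) = 1 := by
      rw [← Real.rpow_natCast t 2, ← Real.rpow_add ht0]
      norm_num
    calc |F t| ≤ C := h2 t ht1.le
      _ = C * (t ^ (-2 : ℝ) * t ^ (2 : ℕ)) := by rw [h4, mul_one]
      _ = C * t ^ (-2 : ℝ) * t ^ (2 : ℕ) := by ring
      _ ≤ C * t ^ (-2 : ℝ) * (x + t) ^ k := by gcongr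

theorem dom : T_dom := fun x F C hx hF h1 h2 =>
  ⟨dom_aux x F C hx hF h1 h2 2 le_rfl (by norm_num),
    dom_aux x F C hx hF h1 h2 3 (by norm_num) le_rfl⟩

end Pool.Agent.H41.HM
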