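import Mathlib
import Pool.Agent.H99.HM.Targets

/-! # MP_6a9259_mp, module W -/

set_option autoImplicit false

namespace Pool.Agent.H41.HM

open MeasureTheory Set Filter Topology Real Pool.Agent.H99.HM

/-- measurability of functions continuous on `[0, ∞)` -/
theorem meas_of_cont {f : ℝ → ℝ} (hf : ContinuousOn f (Ici 0)) :
    AEStronglyMeasurable f (volume.restrict (Ioi 0)) :=
  (hf.mono Ioi_subset_Ici_self).aestronglyMeasurable measurableSet_Ioi

/-- product of two `L²` functions -/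
theorem int_mul {f g : ℝ → ℝ} (hf : ContinuousOn f (Ici 0)) (hg : ContinuousOn g (Ici 0))
    (hf2 : IntegrableOn (fun t => f t ^ 2) (Ioi 0)) (hg2 : IntegrableOn (fun t => g t ^ 2) (Ioi 0)) :
    IntegrableOn (fun t => f t * g t) (Ioi 0) := by
  refine Integrable.mono' (hf2.add hg2) (meas_of_cont (hf.mul hg)) (Eventually.of_forall fun t => ?_)
  rw [Real.norm_eq_abs, abs_mul]
  simp only [Pi.add_apply]
  have h1 := sq_nonneg (|f t| - |g t|)
  have h2 := sq_abs (f t)
  have h3 := sq_abs (g t)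
  nlinarith [abs_nonneg (f t), abs_nonneg (g t)]

/-- bounded times integrable -/
theorem int_bdd_mul {f g : ℝ → ℝ} (hf : ContinuousOn f (Ici 0)) {C : ℝ}
    (hC : ∀ t, 0 < t → |f t| ≤ C) (hg : IntegrableOn g (Ioi 0)) :
    IntegrableOn (fun t => f t * g t) (Ioi 0) := by
  refine Integrable.bdd_mul (c := C) hg (meas_of_cont hf) ?_
  exact (ae_restrict_iff' measurableSet_Ioi).mpr (Eventually.of_forall fun t ht => hC t ht)

/-- bounds of `Sf s` for an exterior solution -/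
theorem Sf_bd {x ell : ℝ} {s s1 : ℝ → ℝ} (h : ExtFacts x ell s s1) :
    ∃ C : ℝ, 0 < C ∧ (∀ t ∈ Ioc (0 : ℝ) 1, |Sf s t| ≤ C * t ^ 3) ∧
      ∀ t, 1 ≤ t → |Sf s t| ≤ C := by
  obtain ⟨c, C, hc, hC, hn⟩ := h.near0
  refine ⟨C + Mf s, by linarith [h.mpos], ?_, ?_⟩
  · intro t ht
    rw [abs_of_pos (h.Spos t ht.1)]
    have h1 := (hn t ⟨ht.1.le, ht.2⟩).2.2.2
    have h2 : 0 ≤ Mf s * t ^ 3 := mul_nonneg h.mpos.le (pow_nonneg ht.1.le 3)
    linarith
  · intro t ht
    rw [abs_of_pos (h.Spos t (by linarith))]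
    have := h.Slt t (by linarith)
    linarith

theorem delta_bd {x ell y ell' : ℝ} {s s1 r r1 : ℝ → ℝ} (h : ExtFacts x ell s s1)
    (h' : ExtFacts y ell' r r1) :
    ∃ C : ℝ, 0 < C ∧ (∀ t ∈ Ioc (0 : ℝ) 1, |Sf r t - Sf s t| ≤ C * t ^ 3) ∧
      ∀ t, 1 ≤ t → |Sf r t - Sf s t| ≤ C := by
  obtain ⟨C, hC, h1, h2⟩ := Sf_bd h
  obtain ⟨C', hC', h1', h2'⟩ := Sf_bd h'
  refine ⟨C + C', by linarith, ?_, ?_⟩
  · intro t ht
    have h3 := abs_sub (Sf r t) (Sf s t)
    have h4 := h1 t ht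
    have h5 := h1' t ht
    linarith
  · intro t ht
    have h3 := abs_sub (Sf r t) (Sf s t)
    have h4 := h2 t ht
    have h5 := h2' t ht
    linarith

theorem ext_cont {x ell : ℝ} {s s1 : ℝ → ℝ} (h : Ext x ell s s1) : ContinuousOn s (Ici 0) := by
  intro t ht
  rcases (mem_Ici.mp ht).eq_or_lt with rfl | ht'
  · exact h.der0.continuousWithinAt
  · exact (h.der t ht').continuousAt.continuousWithinAt

theorem w (hfacts : T_facts) (hdom : T_dom) : T_W := by
  intro x ell s s1 r r1 hs hr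
  have fs := hfacts _ _ _ _ hs
  have fr := hfacts _ _ _ _ hr
  have hx0 := hs.x0
  obtain ⟨C, hC, hd1, hd2⟩ := delta_bd fs fr
  have hDcont : ContinuousOn (fun t => Sf r t - Sf s t) (Ici 0) := fr.Scont.sub fs.Scont
  have hint : IntegrableOn (fun t => (Sf r t - Sf s t) / (x + t) ^ 2) (Ioi 0) :=
    (hdom x _ C hx0 (meas_of_cont hDcont) hd1 hd2).1
  have hPsi : ∀ t, 0 < t → Psi x ell s r t = ell + phi x r t - phi x s t := by
    intro t ht
    unfold Psi phi
    have h1 : ∫ τ in Ioi t, (Sf r τ - Sf s τ) / (x + τ) ^ 2 =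
        (∫ τ in Ioi t, (1 - Sf s τ) / (x + τ) ^ 2) - ∫ τ in Ioi t, (1 - Sf r τ) / (x + τ) ^ 2 := by
      rw [← integral_sub (fs.phiInt t ht) (fr.phiInt t ht)]
      congr 1
      ext τ
      ring
    rw [h1]
    ring
  have hPcont : ContinuousOn (Psi x ell s r) (Ici 0) := by
    unfold Psi
    exact continuousOn_const.sub hint.continuousOn_Ici_primitive_Ioi
  have hPlim : Tendsto (Psi x ell s r) atTop (𝓝 ell) := by
    have h1 : Tendsto (fun t => ell + phi x r t - phi x s t) atTop (𝓝 (ell + 0 - 0)) :=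
      (tendsto_const_nhds.add fr.phiLim).sub fs.phiLim
    rw [add_zero, sub_zero] at h1
    refine h1.congr' ?_
    filter_upwards [eventually_gt_atTop 0] with t ht
    exact (hPsi t ht).symm
  have hPder : ∀ t, 0 < t →
      HasDerivAt (Psi x ell s r) ((Sf r t - Sf s t) / (x + t) ^ 2) t := by
    intro t ht
    have h1 : HasDerivAt (fun t => ell + phi x r t - phi x s t)
        (-((1 - Sf r t) / (x + t) ^ 2) - -((1 - Sf s t) / (x + t) ^ 2)) t :=
      ((fr.phiDer t ht).const_add ell).sub (fs.phiDer t ht)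
    have h2 : -((1 - Sf r t) / (x + t) ^ 2) - -((1 - Sf s t) / (x + t) ^ 2) =
        (Sf r t - Sf s t) / (x + t) ^ 2 := by ring
    rw [h2] at h1
    refine h1.congr_of_eventuallyEq ?_
    filter_upwards [lt_mem_nhds ht] with τ hτ
    exact hPsi τ hτ
  have hwcont : ContinuousOn (fun t => s t * r1 t - r t * s1 t) (Ici 0) :=
    (fs.contS.mul hr.cont1).sub (fr.contS.mul hs.cont1)
  have hwder : ∀ t, 0 < t → HasDerivAt (fun t => s t * r1 t - r t * s1 t)
      (-(Psi x ell s r t * (s t * r t))) t := by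
    intro t ht
    have h1 := ((hs.der t ht).mul (hr.der1 t ht)).sub ((hr.der t ht).mul (hs.der1 t ht))
    refine HasDerivAt.congr_deriv (f := fun t => s t * r1 t - r t * s1 t) h1 ?_
    rw [hPsi t ht]
    ring
  have hwlim : Tendsto (fun t => s t * r1 t - r t * s1 t) atTop (𝓝 0) := by
    have h1 := (fs.slim.mul fr.s1lim).sub (fr.slim.mul fs.s1lim)
    simpa using h1
  -- boundedness of Psi
  have hPbd : ∀ t, 0 < t → |Psi x ell s r t| ≤
      |ell| + ∫ τ in Ioi (0 : ℝ), |(Sf r τ - Sf s τ) / (x + τ) ^ 2| := by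
    intro t ht
    unfold Psi
    refine (abs_sub _ _).trans ?_
    have h1 : |∫ τ in Ioi t, (Sf r τ - Sf s τ) / (x + τ) ^ 2| ≤
        ∫ τ in Ioi t, |(Sf r τ - Sf s τ) / (x + τ) ^ 2| := by
      rw [← Real.norm_eq_abs]
      exact norm_integral_le_integral_norm _
    have h2 : ∫ τ in Ioi t, |(Sf r τ - Sf s τ) / (x + τ) ^ 2| ≤
        ∫ τ in Ioi (0 : ℝ), |(Sf r τ - Sf s τ) / (x + τ) ^ 2| :=
      setIntegral_mono_set hint.abs (Eventually.of_forall fun τ => abs_nonneg _)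
        (Eventually.of_forall fun τ hτ => lt_trans ht hτ)
    linarith
  have hsr : IntegrableOn (fun t => s t * r t) (Ioi 0) :=
    int_mul fs.contS fr.contS hs.int0 hr.int0
  have hPint : IntegrableOn (fun t => Psi x ell s r t * (s t * r t)) (Ioi 0) :=
    int_bdd_mul hPcont hPbd hsr
  refine ⟨hint, hPsi, hPcont, hPlim, hPder, hwcont, hwder, hwlim, hPint, ?_⟩
  have h1 := integral_Ioi_of_hasDerivAt_of_tendsto (hwcont 0 self_mem_Ici)
    (fun t ht => hwder t ht) hPint.neg hwlim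
  have h2 : ∫ t in Ioi (0 : ℝ), -(Psi x ell s r t * (s t * r t)) =
      -∫ t in Ioi (0 : ℝ), Psi x ell s r t * (s t * r t) := integral_neg _
  rw [h2, hs.zero, hr.zero] at h1
  linarith

end Pool.Agent.H41.HM
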