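import Mathlib
import Pool.Agent.H99.HM.Targets
import Pool.Agent.H41.HM.W

/-! # MP_6a9259_mp, module E1 -/

set_option autoImplicit false

namespace Pool.Agent.H41.HM

open MeasureTheory Set Filter Topology Real Pool.Agent.H99.HM

/-- continuity at `0` from a linear bound -/
theorem cont_zero {F : ℝ → ℝ} {K : ℝ} (h0 : F 0 = 0) (h : ∀ t ∈ Ioc (0 : ℝ) 1, |F t| ≤ K * t) :
    ContinuousWithinAt F (Ici 0) 0 := by
  rw [ContinuousWithinAt, h0]
  have h1 : Tendsto (fun t : ℝ => K * t) (𝓝[Ici 0] 0) (𝓝 0) := by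
    have : Tendsto (fun t : ℝ => K * t) (𝓝 0) (𝓝 (K * 0)) := (continuous_const.mul continuous_id).tendsto 0
    rw [mul_zero] at this
    exact this.mono_left nhdsWithin_le_nhds
  refine squeeze_zero_norm' ?_ h1
  have h2 : Iic (1 : ℝ) ∈ 𝓝[Ici 0] (0 : ℝ) := mem_nhdsWithin_of_mem_nhds (Iic_mem_nhds one_pos)
  filter_upwards [h2, self_mem_nhdsWithin] with t ht ht0
  rcases (mem_Ici.mp ht0).eq_or_lt with h3 | h3
  · rw [← h3, h0]
    simp
  · exact h t ⟨h3, ht⟩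

/-- bounds for powers of `S` -/
theorem Spow_bd {x ell : ℝ} {s s1 : ℝ → ℝ} (h : ExtFacts x ell s s1) (k : ℕ) (hk : 1 ≤ k) :
    ∃ C : ℝ, 0 < C ∧ (∀ t ∈ Ioc (0 : ℝ) 1, |Sf s t ^ k| ≤ C * t ^ 3) ∧
      ∀ t, 1 ≤ t → |Sf s t ^ k| ≤ C := by
  obtain ⟨C, hC, h1, h2⟩ := Sf_bd h
  refine ⟨C * Mf s ^ (k - 1), mul_pos hC (pow_pos h.mpos _), ?_, ?_⟩
  · intro t ht
    obtain ⟨m, rfl⟩ : ∃ m, k = m + 1 := ⟨k - 1, by omega⟩
    rw [pow_succ, abs_mul, abs_of_nonneg (pow_nonneg (h.Spos t ht.1).le m)]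
    simp only [Nat.add_sub_cancel]
    have h3 : Sf s t ^ m ≤ Mf s ^ m := pow_le_pow_left₀ (h.Spos t ht.1).le (h.Slt t ht.1.le).le m
    have h4 := h1 t ht
    calc Sf s t ^ m * |Sf s t| ≤ Mf s ^ m * (C * t ^ 3) :=
          mul_le_mul h3 h4 (abs_nonneg _) (pow_nonneg h.mpos.le m)
      _ = C * Mf s ^ m * t ^ 3 := by ring
  · intro t ht
    have ht0 : 0 < t := by linarith
    obtain ⟨m, rfl⟩ : ∃ m, k = m + 1 := ⟨k - 1, by omega⟩
    rw [pow_succ, abs_mul, abs_of_nonneg (pow_nonneg (h.Spos t ht0).le m)]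
    simp only [Nat.add_sub_cancel]
    have h3 : Sf s t ^ m ≤ Mf s ^ m := pow_le_pow_left₀ (h.Spos t ht0).le (h.Slt t ht0.le).le m
    have h4 := h2 t ht
    calc Sf s t ^ m * |Sf s t| ≤ Mf s ^ m * C :=
          mul_le_mul h3 h4 (abs_nonneg _) (pow_nonneg h.mpos.le m)
      _ = C * Mf s ^ m := by ring

theorem Iw_int (hdom : T_dom) {x ell : ℝ} {s s1 : ℝ → ℝ} (hx : 0 ≤ x)
    (h : ExtFacts x ell s s1) (k : ℕ) (hk : 1 ≤ k) :
    IntegrableOn (fun t => Sf s t ^ k / (x + t) ^ 2) (Ioi 0) ∧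
      IntegrableOn (fun t => Sf s t ^ k / (x + t) ^ 3) (Ioi 0) := by
  obtain ⟨C, _, h1, h2⟩ := Spow_bd h k hk
  exact hdom x _ C hx (meas_of_cont (h.Scont.pow k)) h1 h2

/-- the function `S - S^2/2` -/
theorem Sq_bd {x ell : ℝ} {s s1 : ℝ → ℝ} (h : ExtFacts x ell s s1) :
    ∃ C : ℝ, 0 < C ∧ (∀ t ∈ Ioc (0 : ℝ) 1, |Sf s t - Sf s t ^ 2 / 2| ≤ C * t ^ 3) ∧
      ∀ t, 1 ≤ t → |Sf s t - Sf s t ^ 2 / 2| ≤ C := by
  obtain ⟨C, hC, h1, h2⟩ := Sf_bd h
  obtain ⟨C', hC', h1', h2'⟩ := Spow_bd h 2 (by norm_num)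
  refine ⟨C + C', by linarith, ?_, ?_⟩
  · intro t ht
    have h3 := abs_sub (Sf s t) (Sf s t ^ 2 / 2)
    have h4 := h1 t ht
    have h5 := h1' t ht
    rw [abs_div, abs_of_pos (two_pos : (0 : ℝ) < 2)] at h3
    have h6 := abs_nonneg (Sf s t ^ 2)
    linarith
  · intro t ht
    have h3 := abs_sub (Sf s t) (Sf s t ^ 2 / 2)
    have h4 := h2 t ht
    have h5 := h2' t ht
    rw [abs_div, abs_of_pos (two_pos : (0 : ℝ) < 2)] at h3
    have h6 := abs_nonneg (Sf s t ^ 2)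
    linarith

/-- `(ell - phi) s^2` tends to `0` at `0` -/
theorem phi_sq_cont {x ell : ℝ} {s s1 : ℝ → ℝ} (hs : Ext x ell s s1)
    (h : ExtFacts x ell s s1) :
    ContinuousWithinAt (fun t => (ell - phi x s t) * s t ^ 2) (Ici 0) 0 := by
  obtain ⟨c, C, hc, hC, hn⟩ := h.near0
  refine cont_zero (K := (|ell| + (1 + Mf s)) * C ^ 2) (by rw [hs.zero]; ring) ?_
  intro t ht
  have ht0 := ht.1
  obtain ⟨_, h2, _, _⟩ := hn t ⟨ht.1.le, ht.2⟩
  have h3 := h.phiBd t ht0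
  have hx0 := hs.x0
  have hsp := hs.pos t ht0
  rw [abs_mul, abs_of_nonneg (sq_nonneg (s t))]
  have h4 : |ell - phi x s t| * t ≤ |ell| + (1 + Mf s) := by
    have h5 : |ell - phi x s t| ≤ |ell| + |phi x s t| := abs_sub _ _
    have h6 : |phi x s t| * t ≤ 1 + Mf s := by
      have h7 : |phi x s t| * (x + t) ≤ 1 + Mf s := by
        rwa [le_div_iff₀ (by linarith)] at h3
      have h8 : |phi x s t| * t ≤ |phi x s t| * (x + t) :=
        mul_le_mul_of_nonneg_left (by linarith) (abs_nonneg _)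
      linarith
    have h9 : |ell| * t ≤ |ell| * 1 := mul_le_mul_of_nonneg_left ht.2 (abs_nonneg _)
    calc |ell - phi x s t| * t ≤ (|ell| + |phi x s t|) * t :=
          mul_le_mul_of_nonneg_right h5 ht0.le
      _ ≤ |ell| + (1 + Mf s) := by linarith
  have h5 : s t ^ 2 ≤ C ^ 2 * t ^ 2 := by
    have : s t ^ 2 ≤ (C * t) ^ 2 := by gcongr
    rwa [mul_pow] at this
  calc |ell - phi x s t| * s t ^ 2 ≤ |ell - phi x s t| * (C ^ 2 * t ^ 2) :=
        mul_le_mul_of_nonneg_left h5 (abs_nonneg _)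
    _ = (|ell - phi x s t| * t) * (C ^ 2 * t) := by ring
    _ ≤ (|ell| + (1 + Mf s)) * (C ^ 2 * t) := mul_le_mul_of_nonneg_right h4 (by positivity)
    _ = (|ell| + (1 + Mf s)) * C ^ 2 * t := by ring

/-- `S - S^2/2` divided by `(x+t)^2` is continuous at `0` and tends to `0` at infinity -/
theorem frac_cont {x : ℝ} (hx : 0 ≤ x) {F : ℝ → ℝ} {C : ℝ} (hC : 0 < C) (h0 : F 0 = 0)
    (h1 : ∀ t ∈ Ioc (0 : ℝ) 1, |F t| ≤ C * t ^ 3) :
    ContinuousWithinAt (fun t => F t / (x + t) ^ 2) (Ici 0) 0 := by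
  refine cont_zero (K := C) (by rw [h0, zero_div]) ?_
  intro t ht
  have ht0 := ht.1
  rw [abs_div, abs_of_pos (by positivity : 0 < (x + t) ^ 2), div_le_iff₀ (by positivity)]
  calc |F t| ≤ C * t ^ 3 := h1 t ht
    _ = C * t * t ^ 2 := by ring
    _ ≤ C * t * (x + t) ^ 2 := by gcongr; linarith

theorem frac_lim {x : ℝ} {F : ℝ → ℝ} {C : ℝ}
    (h2 : ∀ t, 1 ≤ t → |F t| ≤ C) :
    Tendsto (fun t => F t / (x + t) ^ 2) atTop (𝓝 0) := by
  have h1 : Tendsto (fun t : ℝ => (x + t) ^ 2) atTop atTop := by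
    have : Tendsto (fun t : ℝ => x + t) atTop atTop :=
      tendsto_atTop_add_const_left _ _ tendsto_id
    exact (tendsto_pow_atTop (two_ne_zero)).comp this
  have h3 : Tendsto (fun t : ℝ => C * ((x + t) ^ 2)⁻¹) atTop (𝓝 0) := by
    have := h1.inv_tendsto_atTop.const_mul C
    simpa using this
  refine squeeze_zero_norm' ?_ h3
  filter_upwards [eventually_ge_atTop 1] with t ht
  rw [norm_div, Real.norm_eq_abs, Real.norm_eq_abs, abs_of_nonneg (sq_nonneg (x + t)),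
    div_eq_mul_inv]
  gcongr
  exact h2 t ht

theorem e1 (hfacts : T_facts) (hdom : T_dom) : T_E1 := by
  intro x ell s s1 hs
  have fs := hfacts _ _ _ _ hs
  have hx0 := hs.x0
  obtain ⟨C, hC, hq1, hq2⟩ := Sq_bd fs
  have hpi : (0 : ℝ) < 4 * π := by positivity
  -- the function `H`
  let H : ℝ → ℝ := fun t => s1 t ^ 2 - (ell - phi x s t) * s t ^ 2 +
    1 / (4 * π) * ((Sf s t - Sf s t ^ 2 / 2) / (x + t) ^ 2)
  have hHder : ∀ t ∈ Ioi (0 : ℝ), HasDerivAt H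
      (-(1 / (2 * π)) * ((Sf s t - Sf s t ^ 2 / 2) / (x + t) ^ 3)) t := by
    intro t ht
    have ht0 : 0 < t := ht
    have hxt : x + t ≠ 0 := by linarith
    have d1 : HasDerivAt (fun t => s1 t ^ 2) (2 * s1 t * ((ell - phi x s t) * s t)) t := by
      have := (hs.der1 t ht0).pow 2
      refine HasDerivAt.congr_deriv this ?_
      simp
    have d2 : HasDerivAt (fun t => s t ^ 2) (2 * s t * s1 t) t := by
      have := (hs.der t ht0).pow 2
      refine HasDerivAt.congr_deriv this ?_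
      simp
    have d3 : HasDerivAt (fun t => ell - phi x s t) ((1 - Sf s t) / (x + t) ^ 2) t := by
      have := (fs.phiDer t ht0).const_sub ell
      refine HasDerivAt.congr_deriv this ?_
      ring
    have d4 : HasDerivAt (fun t => Sf s t - Sf s t ^ 2 / 2)
        (4 * π * s t ^ 2 - Sf s t * (4 * π * s t ^ 2)) t := by
      have := (fs.Sder t ht0).sub (((fs.Sder t ht0).pow 2).div_const 2)
      refine HasDerivAt.congr_deriv this ?_
      simp
      ring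
    have d5 : HasDerivAt (fun t => (x + t) ^ 2) (2 * (x + t)) t := by
      have := ((hasDerivAt_id t).const_add x).pow 2
      refine HasDerivAt.congr_deriv this ?_
      simp
    have d6 := (d1.sub (d3.mul d2)).add ((d4.div d5 (pow_ne_zero 2 hxt)).const_mul (1 / (4 * π)))
    refine HasDerivAt.congr_deriv d6 ?_
    have hpi0 : π ≠ 0 := pi_ne_zero
    field_simp
    ring
  have hHcont : ContinuousWithinAt H (Ici 0) 0 := by
    have c1 : ContinuousWithinAt (fun t => s1 t ^ 2) (Ici 0) 0 :=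
      (hs.cont1 0 self_mem_Ici).pow 2
    have c2 := phi_sq_cont hs fs
    have c3 : ContinuousWithinAt (fun t => (Sf s t - Sf s t ^ 2 / 2) / (x + t) ^ 2) (Ici 0) 0 :=
      frac_cont hx0 hC (by rw [fs.S0]; ring) hq1
    exact (c1.sub c2).add (continuousWithinAt_const.mul c3)
  have hHlim : Tendsto H atTop (𝓝 0) := by
    have l1 := fs.s1lim.pow 2
    have l2 := (fs.phiLim.const_sub ell).mul (fs.slim.pow 2)
    have l3 : Tendsto (fun t => (Sf s t - Sf s t ^ 2 / 2) / (x + t) ^ 2) atTop (𝓝 0) :=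
      frac_lim hq2
    have l4 := (l1.sub l2).add (l3.const_mul (1 / (4 * π)))
    have l5 : (0 : ℝ) ^ 2 - (ell - 0) * 0 ^ 2 + 1 / (4 * π) * 0 = 0 := by ring
    rw [l5] at l4
    exact l4
  obtain ⟨_, i1⟩ := Iw_int hdom hx0 fs 1 le_rfl
  obtain ⟨_, i2⟩ := Iw_int hdom hx0 fs 2 (by norm_num)
  have hsplit : (fun t => (Sf s t - Sf s t ^ 2 / 2) / (x + t) ^ 3) =
      fun t => Sf s t ^ 1 / (x + t) ^ 3 - 1 / 2 * (Sf s t ^ 2 / (x + t) ^ 3) := by
    ext t
    ring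
  have hint : IntegrableOn (fun t => (Sf s t - Sf s t ^ 2 / 2) / (x + t) ^ 3) (Ioi 0) := by
    rw [hsplit]
    exact i1.sub (i2.const_mul _)
  have h1 := integral_Ioi_of_hasDerivAt_of_tendsto hHcont hHder (hint.const_mul _) hHlim
  rw [integral_const_mul] at h1
  have h2 : ∫ t in Ioi (0 : ℝ), (Sf s t - Sf s t ^ 2 / 2) / (x + t) ^ 3 =
      Iw 1 3 x s - 1 / 2 * Iw 2 3 x s := by
    unfold Iw
    rw [hsplit, integral_sub i1 (i2.const_mul _), integral_const_mul]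
  rw [h2] at h1
  have h3 : H 0 = s1 0 ^ 2 := by
    simp only [H]
    rw [hs.zero, fs.S0]
    ring
  rw [h3] at h1
  have hpi0 : π ≠ 0 := pi_ne_zero
  field_simp at h1
  linarith

end Pool.Agent.H41.HM
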