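import Mathlib
import Pool.Agent.H99.HM.Targets
import Pool.Agent.H41.HM.E1

/-! # MP_6a9259_mp, modules EN, V, BL, SMALL -/

set_option autoImplicit false

namespace Pool.Agent.H41.HM

open MeasureTheory Set Filter Topology Real Pool.Agent.H99.HM

theorem adm_s1 {x ell : ℝ} {s s1 : ℝ → ℝ} (hs : Ext x ell s s1) (fs : ExtFacts x ell s s1) :
    Adm s1 := by
  refine ⟨?_, ?_⟩
  · rw [memLp_two_iff_integrable_sq (meas_of_cont hs.cont1)]
    exact hs.int1
  · have h1 : MemLp s 2 (volume.restrict (Ioi 0)) := by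
      rw [memLp_two_iff_integrable_sq (meas_of_cont fs.contS)]
      exact hs.int0
    refine h1.ae_eq ?_
    exact (ae_restrict_iff' measurableSet_Ioi).mpr
      (Eventually.of_forall fun t ht => (fs.vg t (le_of_lt ht)).symm)

theorem Sf_vg {x ell : ℝ} {s s1 : ℝ → ℝ} (fs : ExtFacts x ell s s1) {t : ℝ} (ht : 0 ≤ t) :
    Sf (Vg s1) t = Sf s t := by
  unfold Sf
  congr 1
  refine intervalIntegral.integral_congr fun τ hτ => ?_
  rw [uIcc_of_le ht] at hτ
  simp only [fs.vg τ hτ.1]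

theorem Mf_vg {x ell : ℝ} {s s1 : ℝ → ℝ} (fs : ExtFacts x ell s s1) :
    Mf (Vg s1) = Mf s := by
  unfold Mf
  congr 1
  refine setIntegral_congr_fun measurableSet_Ioi fun τ hτ => ?_
  simp only [fs.vg τ (le_of_lt hτ)]

theorem setInt_pos {f : ℝ → ℝ} {a : ℝ} (hf : IntegrableOn f (Ioi a)) (hpos : ∀ t, a < t → 0 < f t) :
    0 < ∫ t in Ioi a, f t := by
  rw [setIntegral_pos_iff_support_of_nonneg_ae]
  · have h1 : Function.support f ∩ Ioi a = Ioi a := by
      ext t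
      simp only [mem_inter_iff, Function.mem_support, mem_Ioi, and_iff_right_iff_imp]
      exact fun ht => (hpos t ht).ne'
    rw [h1]
    simp
  · exact (ae_restrict_iff' measurableSet_Ioi).mpr
      (Eventually.of_forall fun t ht => (hpos t ht).le)
  · exact hf

/-- derivative facts -/
theorem d_s1sq {x ell : ℝ} {s s1 : ℝ → ℝ} (hs : Ext x ell s s1) {t : ℝ} (ht : 0 < t) :
    HasDerivAt (fun t => s1 t ^ 2) (2 * s1 t * ((ell - phi x s t) * s t)) t := by
  have := (hs.der1 t ht).pow 2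
  refine HasDerivAt.congr_deriv this ?_
  simp

theorem d_ssq {x ell : ℝ} {s s1 : ℝ → ℝ} (hs : Ext x ell s s1) {t : ℝ} (ht : 0 < t) :
    HasDerivAt (fun t => s t ^ 2) (2 * s t * s1 t) t := by
  have := (hs.der t ht).pow 2
  refine HasDerivAt.congr_deriv this ?_
  simp

theorem d_phi {x ell : ℝ} {s s1 : ℝ → ℝ} (fs : ExtFacts x ell s s1) {t : ℝ} (ht : 0 < t) :
    HasDerivAt (fun t => ell - phi x s t) ((1 - Sf s t) / (x + t) ^ 2) t := by
  have := (fs.phiDer t ht).const_sub ell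
  refine HasDerivAt.congr_deriv this ?_
  ring

theorem d_Sq {x ell : ℝ} {s s1 : ℝ → ℝ} (fs : ExtFacts x ell s s1) {t : ℝ} (ht : 0 < t) :
    HasDerivAt (fun t => Sf s t - Sf s t ^ 2 / 2)
      (4 * π * s t ^ 2 - Sf s t * (4 * π * s t ^ 2)) t := by
  have := (fs.Sder t ht).sub (((fs.Sder t ht).pow 2).div_const 2)
  refine HasDerivAt.congr_deriv this ?_
  simp
  ring

theorem d_ss1 {x ell : ℝ} {s s1 : ℝ → ℝ} (hs : Ext x ell s s1) {t : ℝ} (ht : 0 < t) :
    HasDerivAt (fun t => s t * s1 t) (s1 t ^ 2 + (ell - phi x s t) * s t ^ 2) t := by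
  have := (hs.der t ht).mul (hs.der1 t ht)
  refine HasDerivAt.congr_deriv this ?_
  ring

theorem ss1_cont {x ell : ℝ} {s s1 : ℝ → ℝ} (hs : Ext x ell s s1) (fs : ExtFacts x ell s s1) :
    ContinuousOn (fun t => s t * s1 t) (Ici 0) := fs.contS.mul hs.cont1

/-- `phi S` is continuous at `0` -/
theorem phiS_cont {x ell : ℝ} {s s1 : ℝ → ℝ} (hs : Ext x ell s s1) (fs : ExtFacts x ell s s1) :
    ContinuousWithinAt (fun t => phi x s t * Sf s t) (Ici 0) 0 := by
  obtain ⟨C, hC, h1, _⟩ := Sf_bd fs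
  refine cont_zero (K := (1 + Mf s) * C) (by rw [fs.S0]; ring) ?_
  intro t ht
  have ht0 := ht.1
  have hx0 := hs.x0
  have hM := fs.mpos
  have h3 := fs.phiBd t ht0
  have h7 : |phi x s t| * (x + t) ≤ 1 + Mf s := by
    rwa [le_div_iff₀ (by linarith)] at h3
  have h8 : |phi x s t| * t ≤ |phi x s t| * (x + t) :=
    mul_le_mul_of_nonneg_left (by linarith) (abs_nonneg _)
  have h9 : t ^ 2 ≤ t := by
    have := mul_le_mul_of_nonneg_left ht.2 ht0.le
    nlinarith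
  rw [abs_mul]
  calc |phi x s t| * |Sf s t| ≤ |phi x s t| * (C * t ^ 3) :=
        mul_le_mul_of_nonneg_left (h1 t ht) (abs_nonneg _)
    _ = (|phi x s t| * t) * (C * t ^ 2) := by ring
    _ ≤ (1 + Mf s) * (C * t) := by
        apply mul_le_mul (by linarith) _ (by positivity) (by linarith)
        exact mul_le_mul_of_nonneg_left h9 hC.le
    _ = (1 + Mf s) * C * t := by ring

theorem energy (hfacts : T_facts) (hdom : T_dom) : T_energy := by
  intro x ell s s1 hs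
  have fs := hfacts _ _ _ _ hs
  have hx0 := hs.x0
  obtain ⟨i1, _⟩ := Iw_int hdom hx0 fs 1 le_rfl
  obtain ⟨i2, _⟩ := Iw_int hdom hx0 fs 2 (by norm_num)
  -- the main identity
  let G : ℝ → ℝ := fun t => 4 * π * (s t * s1 t) + phi x s t * Sf s t
  have hGder : ∀ t ∈ Ioi (0 : ℝ), HasDerivAt G
      (4 * π * s1 t ^ 2 + 4 * π * ell * s t ^ 2 -
        (Sf s t ^ 1 / (x + t) ^ 2 - Sf s t ^ 2 / (x + t) ^ 2)) t := by
    intro t ht
    have ht0 : 0 < t := ht
    have d1 := (d_ss1 hs ht0).const_mul (4 * π)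
    have d2 := (fs.phiDer t ht0).mul (fs.Sder t ht0)
    refine HasDerivAt.congr_deriv (d1.add d2) ?_
    ring
  have hGcont : ContinuousWithinAt G (Ici 0) 0 :=
    (continuousWithinAt_const.mul (ss1_cont hs fs 0 self_mem_Ici)).add (phiS_cont hs fs)
  have hGlim : Tendsto G atTop (𝓝 0) := by
    have l1 := ((fs.slim.mul fs.s1lim).const_mul (4 * π)).add (fs.phiLim.mul fs.Slim)
    have l2 : 4 * π * (0 * 0) + 0 * Mf s = 0 := by ring
    rw [l2] at l1
    exact l1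
  have hint : IntegrableOn (fun t => 4 * π * s1 t ^ 2 + 4 * π * ell * s t ^ 2 -
        (Sf s t ^ 1 / (x + t) ^ 2 - Sf s t ^ 2 / (x + t) ^ 2)) (Ioi 0) :=
    ((hs.int1.const_mul _).add (hs.int0.const_mul _)).sub (i1.sub i2)
  have h1 := integral_Ioi_of_hasDerivAt_of_tendsto hGcont hGder hint hGlim
  have h2 : ∫ t in Ioi (0 : ℝ), (4 * π * s1 t ^ 2 + 4 * π * ell * s t ^ 2 -
        (Sf s t ^ 1 / (x + t) ^ 2 - Sf s t ^ 2 / (x + t) ^ 2)) =
      kin s1 + ell * Mf s - (Iw 1 2 x s - Iw 2 2 x s) := by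
    have a1 : IntegrableOn (fun t => 4 * π * s1 t ^ 2) (Ioi 0) := hs.int1.const_mul _
    have a2 : IntegrableOn (fun t => 4 * π * ell * s t ^ 2) (Ioi 0) := hs.int0.const_mul _
    have e1 : ∫ t in Ioi (0 : ℝ), (4 * π * s1 t ^ 2 + 4 * π * ell * s t ^ 2 -
        (Sf s t ^ 1 / (x + t) ^ 2 - Sf s t ^ 2 / (x + t) ^ 2)) =
        (∫ t in Ioi (0 : ℝ), (4 * π * s1 t ^ 2 + 4 * π * ell * s t ^ 2)) -
        ∫ t in Ioi (0 : ℝ), (Sf s t ^ 1 / (x + t) ^ 2 - Sf s t ^ 2 / (x + t) ^ 2) :=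
      integral_sub (a1.add a2) (i1.sub i2)
    rw [e1, integral_add a1 a2, integral_sub i1 i2, integral_const_mul, integral_const_mul]
    unfold kin Mf Iw
    ring
  rw [h2] at h1
  have h3 : G 0 = 0 := by
    simp only [G]
    rw [hs.zero, fs.S0]
    ring
  rw [h3] at h1
  have hkin : kin s1 + ell * Mf s = Iw 1 2 x s - Iw 2 2 x s := by linarith
  have hatt : att x s1 = Iw 1 2 x s - Iw 2 2 x s / 2 := by
    unfold att
    have h4 : ∫ t in Ioi (0 : ℝ), (Sf (Vg s1) t - Sf (Vg s1) t ^ 2 / 2) / (x + t) ^ 2 =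
        ∫ t in Ioi (0 : ℝ), (Sf s t ^ 1 / (x + t) ^ 2 - 1 / 2 * (Sf s t ^ 2 / (x + t) ^ 2)) := by
      refine setIntegral_congr_fun measurableSet_Ioi fun t ht => ?_
      simp only [Sf_vg fs (le_of_lt ht)]
      ring
    rw [h4, integral_sub i1 (i2.const_mul _), integral_const_mul]
    unfold Iw
    ring
  refine ⟨adm_s1 hs fs, hkin, hatt, ?_, ?_⟩
  · unfold J
    rw [Mf_vg fs, hatt]
    linarith
  · unfold Iw
    refine setInt_pos i2 fun t ht => ?_
    have := fs.Spos t ht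
    positivity

theorem v (hfacts : T_facts) (hdom : T_dom) (hen : T_energy) : T_V := by
  intro x ell s s1 hs
  have fs := hfacts _ _ _ _ hs
  have hx0 := hs.x0
  obtain ⟨i12, i13⟩ := Iw_int hdom hx0 fs 1 le_rfl
  obtain ⟨i22, i23⟩ := Iw_int hdom hx0 fs 2 (by norm_num)
  obtain ⟨_, hkin, _, _, _⟩ := hen _ _ _ _ hs
  obtain ⟨C, hC, hq1, hq2⟩ := Sq_bd fs
  let G : ℝ → ℝ := fun t => 4 * π * (t * (s1 t ^ 2 - (ell - phi x s t) * s t ^ 2) + s t * s1 t) +
    t * ((Sf s t - Sf s t ^ 2 / 2) / (x + t) ^ 2)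
  let g : ℝ → ℝ := fun t => 8 * π * s1 t ^ 2 +
    (2 * x * (Sf s t ^ 1 / (x + t) ^ 3 - 1 / 2 * (Sf s t ^ 2 / (x + t) ^ 3)) -
      (Sf s t ^ 1 / (x + t) ^ 2 - 1 / 2 * (Sf s t ^ 2 / (x + t) ^ 2)))
  have hGder : ∀ t, 0 < t → HasDerivAt G (g t) t := by
    intro t ht0
    have hxt : x + t ≠ 0 := by linarith
    have d1 : HasDerivAt (fun t => s1 t ^ 2 - (ell - phi x s t) * s t ^ 2)
        (-((1 - Sf s t) / (x + t) ^ 2 * s t ^ 2)) t := by
      refine HasDerivAt.congr_deriv ((d_s1sq hs ht0).sub ((d_phi fs ht0).mul (d_ssq hs ht0))) ?_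
      ring
    have d2 : HasDerivAt (fun t => t * (s1 t ^ 2 - (ell - phi x s t) * s t ^ 2))
        (1 * (s1 t ^ 2 - (ell - phi x s t) * s t ^ 2) +
          t * (-((1 - Sf s t) / (x + t) ^ 2 * s t ^ 2))) t := (hasDerivAt_id' t).mul d1
    have d3 : HasDerivAt (fun t => 4 * π * (t * (s1 t ^ 2 - (ell - phi x s t) * s t ^ 2) +
        s t * s1 t)) (4 * π * ((1 * (s1 t ^ 2 - (ell - phi x s t) * s t ^ 2) +
          t * (-((1 - Sf s t) / (x + t) ^ 2 * s t ^ 2))) +
          (s1 t ^ 2 + (ell - phi x s t) * s t ^ 2))) t := (d2.add (d_ss1 hs ht0)).const_mul (4 * π)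
    have d5 : HasDerivAt (fun t => (x + t) ^ 2) (2 * (x + t)) t := by
      have := ((hasDerivAt_id t).const_add x).pow 2
      refine HasDerivAt.congr_deriv this ?_
      simp
    have d51 : HasDerivAt (fun t => (Sf s t - Sf s t ^ 2 / 2) / (x + t) ^ 2)
        (((4 * π * s t ^ 2 - Sf s t * (4 * π * s t ^ 2)) * (x + t) ^ 2 -
          (Sf s t - Sf s t ^ 2 / 2) * (2 * (x + t))) / ((x + t) ^ 2) ^ 2) t :=
      (d_Sq fs ht0).div d5 (pow_ne_zero 2 hxt)
    have d6 : HasDerivAt (fun t => t * ((Sf s t - Sf s t ^ 2 / 2) / (x + t) ^ 2))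
        (1 * ((Sf s t - Sf s t ^ 2 / 2) / (x + t) ^ 2) +
          t * (((4 * π * s t ^ 2 - Sf s t * (4 * π * s t ^ 2)) * (x + t) ^ 2 -
          (Sf s t - Sf s t ^ 2 / 2) * (2 * (x + t))) / ((x + t) ^ 2) ^ 2)) t :=
      (hasDerivAt_id' t).mul d51
    refine HasDerivAt.congr_deriv (d3.add d6) ?_
    simp only [g]
    field_simp
    ring
  have hGcont : ContinuousOn G (Ici 0) := by
    intro t ht
    rcases (mem_Ici.mp ht).eq_or_lt with rfl | ht'
    · have c1 : ContinuousWithinAt (fun t => s1 t ^ 2) (Ici 0) 0 :=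
        (hs.cont1 0 self_mem_Ici).pow 2
      have c2 := phi_sq_cont hs fs
      have c3 : ContinuousWithinAt (fun t => (Sf s t - Sf s t ^ 2 / 2) / (x + t) ^ 2) (Ici 0) 0 :=
        frac_cont hx0 hC (by rw [fs.S0]; ring) hq1
      have c4 : ContinuousWithinAt (fun t : ℝ => t) (Ici 0) 0 := continuousWithinAt_id
      exact (continuousWithinAt_const.mul ((c4.mul (c1.sub c2)).add
        (ss1_cont hs fs 0 self_mem_Ici))).add (c4.mul c3)
    · exact (hGder t ht').continuousAt.continuousWithinAt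
  have hgint : IntegrableOn g (Ioi 0) :=
    (hs.int1.const_mul _).add (((i13.sub (i23.const_mul _)).const_mul _).sub
      (i12.sub (i22.const_mul _)))
  obtain ⟨T, hT0, hT, hTs⟩ := fs.seq
  have hTlim : Tendsto (fun n => ∫ t in (0 : ℝ)..T n, g t) atTop
      (𝓝 (∫ t in Ioi (0 : ℝ), g t)) := intervalIntegral_tendsto_integral_Ioi 0 hgint hT
  have hFTC : ∀ n, ∫ t in (0 : ℝ)..T n, g t = G (T n) := by
    intro n
    have h0 : G 0 = 0 := by
      simp only [G]
      rw [hs.zero, fs.S0]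
      ring
    rw [intervalIntegral.integral_eq_sub_of_hasDerivAt_of_le (hT0 n).le
      (hGcont.mono Icc_subset_Ici_self) (fun t ht => hGder t ht.1), h0, sub_zero]
    rw [intervalIntegrable_iff_integrableOn_Ioc_of_le (hT0 n).le]
    exact hgint.mono_set Ioc_subset_Ioi_self
  have hGT : Tendsto (fun n => G (T n)) atTop (𝓝 0) := by
    -- first part
    have p1 : Tendsto (fun n => T n * (s1 (T n) ^ 2 - (ell - phi x s (T n)) * s (T n) ^ 2)) atTop
        (𝓝 0) := by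
      have hb : Tendsto (fun n => |ell - phi x s (T n)|) atTop (𝓝 |ell - 0|) :=
        ((fs.phiLim.comp hT).const_sub ell).abs
      have hb2 : Tendsto (fun n => (1 + |ell - phi x s (T n)|) *
          (T n * (s (T n) ^ 2 + s1 (T n) ^ 2))) atTop (𝓝 ((1 + |ell - 0|) * 0)) :=
        (hb.const_add 1).mul hTs
      rw [mul_zero] at hb2
      refine squeeze_zero_norm (fun n => ?_) hb2
      rw [Real.norm_eq_abs, abs_mul, abs_of_pos (hT0 n)]
      have h1 : |s1 (T n) ^ 2 - (ell - phi x s (T n)) * s (T n) ^ 2| ≤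
          s1 (T n) ^ 2 + |ell - phi x s (T n)| * s (T n) ^ 2 := by
        refine (abs_sub _ _).trans ?_
        rw [abs_mul, abs_of_nonneg (sq_nonneg (s1 (T n))), abs_of_nonneg (sq_nonneg (s (T n)))]
      have h2 : s1 (T n) ^ 2 + |ell - phi x s (T n)| * s (T n) ^ 2 ≤
          (1 + |ell - phi x s (T n)|) * (s (T n) ^ 2 + s1 (T n) ^ 2) := by
        have h3 := abs_nonneg (ell - phi x s (T n))
        nlinarith [sq_nonneg (s (T n)), sq_nonneg (s1 (T n)),
          mul_nonneg h3 (sq_nonneg (s1 (T n)))]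
      calc T n * |s1 (T n) ^ 2 - (ell - phi x s (T n)) * s (T n) ^ 2| ≤
          T n * ((1 + |ell - phi x s (T n)|) * (s (T n) ^ 2 + s1 (T n) ^ 2)) :=
            mul_le_mul_of_nonneg_left (h1.trans h2) (hT0 n).le
        _ = _ := by ring
    have p2 : Tendsto (fun n => s (T n) * s1 (T n)) atTop (𝓝 0) := by
      have := (fs.slim.mul fs.s1lim).comp hT
      rw [mul_zero] at this
      exact this
    have p3 : Tendsto (fun n => T n * ((Sf s (T n) - Sf s (T n) ^ 2 / 2) / (x + T n) ^ 2)) atTop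
        (𝓝 0) := by
      have hq : Tendsto (fun t : ℝ => t * ((Sf s t - Sf s t ^ 2 / 2) / (x + t) ^ 2)) atTop
          (𝓝 0) := by
        have h3 : Tendsto (fun t : ℝ => C * t⁻¹) atTop (𝓝 0) := by
          have := tendsto_inv_atTop_zero.const_mul C
          simpa using this
        refine squeeze_zero_norm' ?_ h3
        filter_upwards [eventually_ge_atTop 1] with t ht
        have ht0 : 0 < t := by linarith
        rw [norm_mul, norm_div, Real.norm_eq_abs, Real.norm_eq_abs, Real.norm_eq_abs,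
          abs_of_pos ht0, abs_of_nonneg (sq_nonneg (x + t))]
        have h4 := hq2 t ht
        have h5 : |Sf s t - Sf s t ^ 2 / 2| / (x + t) ^ 2 ≤ C / t ^ 2 := by
          gcongr
          linarith
        calc t * (|Sf s t - Sf s t ^ 2 / 2| / (x + t) ^ 2) ≤ t * (C / t ^ 2) :=
              mul_le_mul_of_nonneg_left h5 ht0.le
          _ = C * t⁻¹ := by field_simp
      exact hq.comp hT
    have p4 := ((p1.add p2).const_mul (4 * π)).add p3
    have p5 : 4 * π * (0 + 0) + 0 = 0 := by ring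
    rw [p5] at p4
    exact p4
  have hI : ∫ t in Ioi (0 : ℝ), g t = 0 := by
    refine tendsto_nhds_unique hTlim ?_
    simp only [hFTC]
    exact hGT
  have hI2 : ∫ t in Ioi (0 : ℝ), g t = 2 * kin s1 + (2 * x * (Iw 1 3 x s - 1 / 2 * Iw 2 3 x s) -
      (Iw 1 2 x s - 1 / 2 * Iw 2 2 x s)) := by
    have a1 : IntegrableOn (fun t => 8 * π * s1 t ^ 2) (Ioi 0) := hs.int1.const_mul _
    have a2 : IntegrableOn (fun t => 2 * x * (Sf s t ^ 1 / (x + t) ^ 3 -
        1 / 2 * (Sf s t ^ 2 / (x + t) ^ 3))) (Ioi 0) := (i13.sub (i23.const_mul _)).const_mul _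
    have a3 : IntegrableOn (fun t => Sf s t ^ 1 / (x + t) ^ 2 -
        1 / 2 * (Sf s t ^ 2 / (x + t) ^ 2)) (Ioi 0) := i12.sub (i22.const_mul _)
    have e1 : ∫ t in Ioi (0 : ℝ), g t = (∫ t in Ioi (0 : ℝ), 8 * π * s1 t ^ 2) +
        ∫ t in Ioi (0 : ℝ), (2 * x * (Sf s t ^ 1 / (x + t) ^ 3 -
        1 / 2 * (Sf s t ^ 2 / (x + t) ^ 3)) - (Sf s t ^ 1 / (x + t) ^ 2 -
        1 / 2 * (Sf s t ^ 2 / (x + t) ^ 2))) := integral_add a1 (a2.sub a3)
    have e2 : ∫ t in Ioi (0 : ℝ), (2 * x * (Sf s t ^ 1 / (x + t) ^ 3 -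
        1 / 2 * (Sf s t ^ 2 / (x + t) ^ 3)) - (Sf s t ^ 1 / (x + t) ^ 2 -
        1 / 2 * (Sf s t ^ 2 / (x + t) ^ 2))) = (∫ t in Ioi (0 : ℝ), 2 * x *
        (Sf s t ^ 1 / (x + t) ^ 3 - 1 / 2 * (Sf s t ^ 2 / (x + t) ^ 3))) -
        ∫ t in Ioi (0 : ℝ), (Sf s t ^ 1 / (x + t) ^ 2 - 1 / 2 * (Sf s t ^ 2 / (x + t) ^ 2)) :=
      integral_sub a2 a3
    have e3 : ∫ t in Ioi (0 : ℝ), (Sf s t ^ 1 / (x + t) ^ 3 -
        1 / 2 * (Sf s t ^ 2 / (x + t) ^ 3)) = Iw 1 3 x s - 1 / 2 * Iw 2 3 x s := by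
      unfold Iw
      rw [integral_sub i13 (i23.const_mul _), integral_const_mul]
    have e4 : ∫ t in Ioi (0 : ℝ), (Sf s t ^ 1 / (x + t) ^ 2 -
        1 / 2 * (Sf s t ^ 2 / (x + t) ^ 2)) = Iw 1 2 x s - 1 / 2 * Iw 2 2 x s := by
      unfold Iw
      rw [integral_sub i12 (i22.const_mul _), integral_const_mul]
    rw [e1, e2, integral_const_mul, integral_const_mul, e3, e4]
    unfold kin
    ring
  rw [hI2] at hI
  linarith

theorem bl (hfacts : T_facts) : T_BL := by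
  intro x ell s s1 hs
  have fs := hfacts _ _ _ _ hs
  have hx0 := hs.x0
  have hl0 := hs.l0
  let G : ℝ → ℝ := fun t => 4 * π * ((x + t) * (s t * s1 t) - s t ^ 2 / 2) +
    (Sf s t - Sf s t ^ 2 / 2)
  have hGder : ∀ t, 0 < t → HasDerivAt G (4 * π * ((x + t) * s1 t ^ 2 + (x + t) * ell * s t ^ 2 +
      ((1 - Sf s t) - (x + t) * phi x s t) * s t ^ 2)) t := by
    intro t ht0
    have d0 : HasDerivAt (fun t => x + t) 1 t := (hasDerivAt_id t).const_add x
    have d1 := ((d0.mul (d_ss1 hs ht0)).sub ((d_ssq hs ht0).div_const 2)).const_mul (4 * π)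
    refine HasDerivAt.congr_deriv (d1.add (d_Sq fs ht0)) ?_
    ring
  have hGpos : ∀ t, 0 < t → 4 * π * ((x + t) * s1 t ^ 2) ≤
      4 * π * ((x + t) * s1 t ^ 2 + (x + t) * ell * s t ^ 2 +
      ((1 - Sf s t) - (x + t) * phi x s t) * s t ^ 2) := by
    intro t ht0
    have h1 := fs.phiUp t ht0
    rw [le_div_iff₀ (by linarith)] at h1
    have h2 : 0 ≤ ((1 - Sf s t) - (x + t) * phi x s t) * s t ^ 2 :=
      mul_nonneg (by linarith) (sq_nonneg _)
    have h3 : 0 ≤ (x + t) * ell * s t ^ 2 := by positivity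
    apply mul_le_mul_of_nonneg_left _ (by positivity : 0 ≤ 4 * π)
    linarith
  have hGcont : ContinuousOn G (Ici 0) := by
    have c0 : ContinuousOn (fun t : ℝ => x + t) (Ici 0) := by fun_prop
    exact (continuousOn_const.mul ((c0.mul (ss1_cont hs fs)).sub
      ((fs.contS.pow 2).div_const 2))).add (fs.Scont.sub ((fs.Scont.pow 2).div_const 2))
  have hG0 : G 0 = 0 := by
    simp only [G]
    rw [hs.zero, fs.S0]
    ring
  have hmono : MonotoneOn G (Ici 0) := by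
    refine monotoneOn_of_deriv_nonneg (convex_Ici 0) hGcont ?_ ?_
    · intro t ht
      rw [interior_Ici] at ht
      exact (hGder t ht).differentiableAt.differentiableWithinAt
    · intro t ht
      rw [interior_Ici] at ht
      rw [(hGder t ht).deriv]
      refine le_trans ?_ (hGpos t ht)
      have : 0 < t := ht
      positivity
  -- strict increase near 0
  obtain ⟨δ, hδ, hδs⟩ : ∃ δ : ℝ, 0 < δ ∧ ∀ t ∈ Ioo (0 : ℝ) δ, 0 < s1 t := by
    have h1 : ∀ᶠ t in 𝓝[Ici 0] (0 : ℝ), 0 < s1 t :=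
      (hs.cont1 0 self_mem_Ici).eventually_const_lt fs.s1pos
    rw [eventually_nhdsWithin_iff, Metric.eventually_nhds_iff] at h1
    obtain ⟨ε, hε, h2⟩ := h1
    refine ⟨ε, hε, fun t ht => h2 ?_ ht.1.le⟩
    rw [Real.dist_eq, sub_zero, abs_of_pos ht.1]
    exact ht.2
  have hstrict : StrictMonoOn G (Icc 0 δ) := by
    refine strictMonoOn_of_deriv_pos (convex_Icc 0 δ) (hGcont.mono Icc_subset_Ici_self) ?_
    intro t ht
    rw [interior_Icc] at ht
    rw [(hGder t ht.1).deriv]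
    refine lt_of_lt_of_le ?_ (hGpos t ht.1)
    have h1 := hδs t ht
    have h2 := ht.1
    positivity
  have hGδ : 0 < G δ := by
    have := hstrict ⟨le_rfl, hδ.le⟩ ⟨hδ.le, le_rfl⟩ hδ
    rwa [hG0] at this
  obtain ⟨T, hT0, hT, hTs⟩ := fs.seq
  have hGT : Tendsto (fun n => G (T n)) atTop (𝓝 (Mf s - Mf s ^ 2 / 2)) := by
    have p1 : Tendsto (fun n => (x + T n) * (s (T n) * s1 (T n))) atTop (𝓝 0) := by
      have hb : Tendsto (fun n => x * (s (T n) ^ 2 + s1 (T n) ^ 2) +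
          T n * (s (T n) ^ 2 + s1 (T n) ^ 2)) atTop (𝓝 (x * (0 ^ 2 + 0 ^ 2) + 0)) :=
        ((((fs.slim.pow 2).add (fs.s1lim.pow 2)).comp hT).const_mul x).add hTs
      have h0 : x * (0 ^ 2 + 0 ^ 2) + 0 = 0 := by ring
      rw [h0] at hb
      refine squeeze_zero_norm (fun n => ?_) hb
      have h3 := hT0 n
      rw [Real.norm_eq_abs, abs_mul, abs_of_pos (by linarith : 0 < x + T n)]
      have h1 : |s (T n) * s1 (T n)| ≤ s (T n) ^ 2 + s1 (T n) ^ 2 := by
        rw [abs_mul]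
        have e1 := sq_abs (s (T n))
        have e2 := sq_abs (s1 (T n))
        nlinarith [sq_nonneg (|s (T n)| - |s1 (T n)|), abs_nonneg (s (T n)),
          abs_nonneg (s1 (T n))]
      calc (x + T n) * |s (T n) * s1 (T n)| ≤ (x + T n) * (s (T n) ^ 2 + s1 (T n) ^ 2) :=
            mul_le_mul_of_nonneg_left h1 (by linarith)
        _ = _ := by ring
    have p2 : Tendsto (fun n => s (T n) ^ 2 / 2) atTop (𝓝 (0 ^ 2 / 2)) :=
      ((fs.slim.pow 2).comp hT).div_const 2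
    have p3 : Tendsto (fun n => Sf s (T n) - Sf s (T n) ^ 2 / 2) atTop
        (𝓝 (Mf s - Mf s ^ 2 / 2)) :=
      (fs.Slim.comp hT).sub (((fs.Slim.pow 2).comp hT).div_const 2)
    have p4 := ((p1.sub p2).const_mul (4 * π)).add p3
    have p5 : 4 * π * (0 - 0 ^ 2 / 2) + (Mf s - Mf s ^ 2 / 2) = Mf s - Mf s ^ 2 / 2 := by ring
    rw [p5] at p4
    exact p4
  have hle : G δ ≤ Mf s - Mf s ^ 2 / 2 := by
    refine ge_of_tendsto hGT ?_
    filter_upwards [hT.eventually_ge_atTop δ] with n hn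
    exact hmono hδ.le (hδ.le.trans hn) hn
  have hM := fs.mpos
  have h1 : 0 < Mf s * (1 - Mf s / 2) := by nlinarith
  have h2 := pos_of_mul_pos_right h1 hM.le
  linarith

theorem small (hfacts : T_facts) : T_small := by
  intro x ell s s1 hs
  have fs := hfacts _ _ _ _ hs
  have hx0 := hs.x0
  by_contra hneg
  push Not at hneg
  let G : ℝ → ℝ := fun t => s t * s1 t - (1 / t - 1 / 2) * s t ^ 2
  have hGder : ∀ t, 0 < t → HasDerivAt G ((s1 t - (1 / t - 1 / 2) * s t) ^ 2 +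
      (1 / t - phi x s t) * s t ^ 2 + (ell - 1 / 4) * s t ^ 2) t := by
    intro t ht0
    have ht0' := ht0.ne'
    have d0 : HasDerivAt (fun t : ℝ => 1 / t - 1 / 2) (-(1 / t ^ 2)) t := by
      have := (hasDerivAt_inv ht0').sub_const (1 / 2 : ℝ)
      simp only [one_div]
      refine HasDerivAt.congr_deriv (f := fun t : ℝ => t⁻¹ - 2⁻¹) (by simpa using this) ?_
      simp
    refine HasDerivAt.congr_deriv ((d_ss1 hs ht0).sub (d0.mul (d_ssq hs ht0))) ?_
    field_simp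
    ring
  have hGpos : ∀ t, 0 < t → 0 < (s1 t - (1 / t - 1 / 2) * s t) ^ 2 +
      (1 / t - phi x s t) * s t ^ 2 + (ell - 1 / 4) * s t ^ 2 := by
    intro t ht0
    have h1 := fs.phiUp t ht0
    have h2 : (1 - Sf s t) / (x + t) ≤ 1 / t := by
      have h3 := fs.Spos t ht0
      rw [div_le_div_iff₀ (by linarith) ht0]
      nlinarith [mul_pos h3 ht0]
    have h3 : 0 ≤ (1 / t - phi x s t) * s t ^ 2 := mul_nonneg (by linarith) (sq_nonneg _)
    have h4 : 0 < (ell - 1 / 4) * s t ^ 2 := mul_pos (by linarith) (pow_pos (hs.pos t ht0) 2)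
    have h5 := sq_nonneg (s1 t - (1 / t - 1 / 2) * s t)
    linarith
  have hmono : StrictMonoOn G (Ioi 0) := by
    refine strictMonoOn_of_deriv_pos (convex_Ioi 0) ?_ ?_
    · intro t ht
      exact (hGder t ht).continuousAt.continuousWithinAt
    · intro t ht
      rw [interior_Ioi] at ht
      rw [(hGder t ht).deriv]
      exact hGpos t ht
  have hlim : Tendsto G atTop (𝓝 0) := by
    have l1 : Tendsto (fun t : ℝ => 1 / t - 1 / 2) atTop (𝓝 (0 - 1 / 2)) := by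
      simp only [one_div]
      exact tendsto_inv_atTop_zero.sub_const _
    have l2 := (fs.slim.mul fs.s1lim).sub (l1.mul (fs.slim.pow 2))
    have l3 : (0 : ℝ) * 0 - (0 - 1 / 2) * 0 ^ 2 = 0 := by ring
    rw [l3] at l2
    exact l2
  have hlim0 : Tendsto G (𝓝[>] 0) (𝓝 0) := by
    obtain ⟨c, C, hc, hC, hn⟩ := fs.near0
    have hK : Tendsto (fun t : ℝ => (C ^ 2 + C ^ 2 + C ^ 2) * t) (𝓝[>] 0) (𝓝 0) := by
      have : Tendsto (fun t : ℝ => (C ^ 2 + C ^ 2 + C ^ 2) * t) (𝓝 0)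
          (𝓝 ((C ^ 2 + C ^ 2 + C ^ 2) * 0)) := (continuous_const.mul continuous_id).tendsto 0
      rw [mul_zero] at this
      exact this.mono_left nhdsWithin_le_nhds
    refine squeeze_zero_norm' ?_ hK
    have h2 : Iic (1 : ℝ) ∈ 𝓝[>] (0 : ℝ) := mem_nhdsWithin_of_mem_nhds (Iic_mem_nhds one_pos)
    filter_upwards [h2, self_mem_nhdsWithin] with t ht ht0
    have ht0' : 0 < t := ht0
    obtain ⟨_, h3, h4, _⟩ := hn t ⟨ht0'.le, ht⟩
    have hsp := hs.pos t ht0'
    have ht1 : t ≤ 1 := ht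
    have e1 : |s t * s1 t| ≤ C ^ 2 * t := by
      rw [abs_mul, abs_of_pos hsp]
      calc s t * |s1 t| ≤ (C * t) * C := mul_le_mul h3 h4 (abs_nonneg _) (by positivity)
        _ = C ^ 2 * t := by ring
    have e2 : s t ^ 2 ≤ C ^ 2 * t ^ 2 := by
      have : s t ^ 2 ≤ (C * t) ^ 2 := by gcongr
      rwa [mul_pow] at this
    have e3 : |(1 / t - 1 / 2) * s t ^ 2| ≤ 1 / t * s t ^ 2 + s t ^ 2 := by
      rw [sub_mul]
      refine (abs_sub _ _).trans ?_
      rw [abs_of_nonneg (by positivity), abs_of_nonneg (by positivity)]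
      nlinarith [sq_nonneg (s t)]
    have e4 : 1 / t * s t ^ 2 ≤ C ^ 2 * t := by
      rw [one_div, inv_mul_le_iff₀ ht0']
      calc s t ^ 2 ≤ C ^ 2 * t ^ 2 := e2
        _ = t * (C ^ 2 * t) := by ring
    have e5 : s t ^ 2 ≤ C ^ 2 * t := by
      refine e2.trans ?_
      have : t ^ 2 ≤ t := by nlinarith
      gcongr
    rw [Real.norm_eq_abs]
    have e6 : |G t| ≤ |s t * s1 t| + |(1 / t - 1 / 2) * s t ^ 2| := abs_sub _ _
    linarith
  have h1 : 0 ≤ G 1 := by
    refine le_of_tendsto hlim0 ?_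
    have h2 : Iio (1 : ℝ) ∈ 𝓝[>] (0 : ℝ) := mem_nhdsWithin_of_mem_nhds (Iio_mem_nhds one_pos)
    filter_upwards [h2, self_mem_nhdsWithin] with t ht ht0
    exact (hmono ht0 (mem_Ioi.mpr one_pos) ht).le
  have h2 : G 2 ≤ 0 := by
    refine ge_of_tendsto hlim ?_
    filter_upwards [eventually_gt_atTop 2] with t ht
    exact (hmono (mem_Ioi.mpr two_pos) (mem_Ioi.mpr (by linarith)) ht).le
  have h3 := hmono (mem_Ioi.mpr one_pos) (mem_Ioi.mpr two_pos) one_lt_two
  linarith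

end Pool.Agent.H41.HM
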