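import Mathlib
import Pool.Agent.H99.HM.Targets
import Pool.Agent.H41.HM.En

/-! # MP_6a9259_mp, modules ENV, ONE -/

set_option autoImplicit false

namespace Pool.Agent.H41.HM

open MeasureTheory Set Filter Topology Real Pool.Agent.H99.HM

theorem env (hfacts : T_facts) (hdom : T_dom) (hen : T_energy) (hei : T_einf) : T_env := by
  intro y z ell s s1 hz hs
  have fs := hfacts _ _ _ _ hs
  have hy := hs.x0
  obtain ⟨hA, _, _, hJ, _⟩ := hen _ _ _ _ hs
  obtain ⟨C, hC, hq1, hq2⟩ := Sq_bd fs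
  have hcont : ContinuousOn (fun t => Sf s t - Sf s t ^ 2 / 2) (Ici 0) :=
    fs.Scont.sub ((fs.Scont.pow 2).div_const 2)
  have i1 := (hdom y _ C hy (meas_of_cont hcont) hq1 hq2).1
  have i2 := (hdom z _ C hz (meas_of_cont hcont) hq1 hq2).1
  have hsplit : (fun t => (1 / (y + t) ^ 2 - 1 / (z + t) ^ 2) * (Sf s t - Sf s t ^ 2 / 2)) =
      fun t => (Sf s t - Sf s t ^ 2 / 2) / (y + t) ^ 2 -
        (Sf s t - Sf s t ^ 2 / 2) / (z + t) ^ 2 := by
    ext t; ring
  have hatt : ∀ w, att w s1 = ∫ t in Ioi (0 : ℝ), (Sf s t - Sf s t ^ 2 / 2) / (w + t) ^ 2 := by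
    intro w
    unfold att
    refine setIntegral_congr_fun measurableSet_Ioi fun t ht => ?_
    simp only [Sf_vg fs (le_of_lt ht)]
  refine ⟨?_, ?_⟩
  · rw [hsplit]
    exact i1.sub i2
  · have h1 := (hei z ell hz hs.l0).2.1 s1 hA
    have h2 := (hei y ell hy hs.l0).1 s s1 hs
    rw [hsplit, integral_sub i1 i2, ← hatt y, ← hatt z, h2]
    unfold J at h1 ⊢
    linarith

theorem one (hen : T_energy) (hei : T_einf) (hanti : T_anti) (hex0 : T_ex0)
    (huniq : T_uniq) (hfacts : T_facts) : T_one := by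
  -- positive chemical potential
  have key : ∀ x ell s s1 w w1, Ext x ell s s1 → Ext 0 0 w w1 → 0 < ell → Mf s ≤ Mf w := by
    intro x ell s s1 w w1 hs hw hell
    have fs := hfacts _ _ _ _ hs
    have fw := hfacts _ _ _ _ hw
    obtain ⟨hA, _⟩ := hen _ _ _ _ hs
    obtain ⟨hAw, _⟩ := hen _ _ _ _ hw
    have hx := hs.x0
    have h1 : Einf x 0 ≤ J x 0 s1 := (hei x 0 hx le_rfl).2.1 s1 hA
    have h2 : Einf x ell = J x ell s1 := (hei x ell hx hell.le).1 s s1 hs
    have h3 : J x 0 s1 = J x ell s1 - ell * Mf s := by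
      unfold J
      rw [Mf_vg fs]
      ring
    have h4 : Einf x ell - Einf x 0 ≤ Einf 0 ell - Einf 0 0 :=
      hanti ell hell (mem_Ici.mpr le_rfl) hx hx
    have h5 : Einf 0 ell ≤ J 0 ell w1 := (hei 0 ell le_rfl hell.le).2.1 w1 hAw
    have h6 : Einf 0 0 = J 0 0 w1 := (hei 0 0 le_rfl le_rfl).1 w w1 hw
    have h7 : J 0 ell w1 = J 0 0 w1 + ell * Mf w := by
      unfold J
      rw [Mf_vg fw]
      ring
    have h8 : ell * Mf s ≤ ell * Mf w := by linarith
    exact le_of_mul_le_mul_left h8 hell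
  intro x ell s s1 w w1 hs hw
  rcases hs.l0.eq_or_lt with h0 | h0
  · subst h0
    obtain ⟨s', s1', hs', happ⟩ := hex0 x hs.x0
    have hM : Mf s = Mf s' := by
      unfold Mf
      congr 1
      refine setIntegral_congr_fun measurableSet_Ioi fun t ht => ?_
      simp only [(huniq x 0 s s1 s' s1' hs hs' t (le_of_lt ht)).1]
    rw [hM]
    refine le_of_forall_pos_le_add fun ε hε => ?_
    obtain ⟨l, r, r1, hl, _, hr, hlt⟩ := happ ε hε
    have := key x l r r1 w w1 hr hw hl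
    linarith
  · exact key x ell s s1 w w1 hs hw h0

end Pool.Agent.H41.HM
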