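import Mathlib
import Pool.Agent.H99.HM.Targets
import Pool.Agent.H41.HM.En

/-! # MP_6a9259_mp, module K2 -/

set_option autoImplicit false

namespace Pool.Agent.H41.HM

open MeasureTheory Set Filter Topology Real Pool.Agent.H99.HM

/-- a function with derivative bounded by `K/(2 sqrt t)`, resp. `K` -/
theorem lip_of_deriv {f f' b b' : ℝ → ℝ} (hf : ContinuousOn f (Icc 0 1))
    (hb : ContinuousOn b (Icc 0 1)) (hd : ∀ t ∈ Ioo (0 : ℝ) 1, HasDerivAt f (f' t) t)
    (hdb : ∀ t ∈ Ioo (0 : ℝ) 1, HasDerivAt b (b' t) t)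
    (h : ∀ t ∈ Ioo (0 : ℝ) 1, |f' t| ≤ b' t) {u v : ℝ} (hu : 0 ≤ u) (huv : u ≤ v) (hv : v ≤ 1) :
    |f v - f u| ≤ b v - b u := by
  have hu' : u ∈ Icc (0 : ℝ) 1 := ⟨hu, huv.trans hv⟩
  have hv' : v ∈ Icc (0 : ℝ) 1 := ⟨hu.trans huv, hv⟩
  have m1 : MonotoneOn (fun t => b t - f t) (Icc 0 1) := by
    refine monotoneOn_of_deriv_nonneg (convex_Icc 0 1) (hb.sub hf) ?_ ?_
    · intro t ht
      rw [interior_Icc] at ht
      exact ((hdb t ht).sub (hd t ht)).differentiableAt.differentiableWithinAt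
    · intro t ht
      rw [interior_Icc] at ht
      have h1 : HasDerivAt (fun t => b t - f t) (b' t - f' t) t := (hdb t ht).sub (hd t ht)
      rw [h1.deriv]
      have := le_abs_self (f' t)
      linarith [h t ht]
  have m2 : MonotoneOn (fun t => b t + f t) (Icc 0 1) := by
    refine monotoneOn_of_deriv_nonneg (convex_Icc 0 1) (hb.add hf) ?_ ?_
    · intro t ht
      rw [interior_Icc] at ht
      exact ((hdb t ht).add (hd t ht)).differentiableAt.differentiableWithinAt
    · intro t ht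
      rw [interior_Icc] at ht
      have h1 : HasDerivAt (fun t => b t + f t) (b' t + f' t) t := (hdb t ht).add (hd t ht)
      rw [h1.deriv]
      have := neg_abs_le (f' t)
      linarith [h t ht]
  have h1 : b u - f u ≤ b v - f v := m1 hu' hv' huv
  have h2 : b u + f u ≤ b v + f v := m2 hu' hv' huv
  rw [abs_le]
  constructor <;> linarith

theorem k2 (hfacts : T_facts) (hadm : T_adm) (hen : T_energy) (hBL : T_BL) (hsm : T_small) :
    T_K2 := by
  intro x ell s s1 hs
  have fs := hfacts _ _ _ _ hs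
  have hx0 := hs.x0
  have hl0 := hs.l0
  obtain ⟨hA, _, _, hJ, hI⟩ := hen _ _ _ _ hs
  have fa := hadm _ hA
  have hM2 := hBL _ _ _ _ hs
  have hell := hsm _ _ _ _ hs
  have hM := fs.mpos
  have hpi3 := Real.pi_gt_three
  have hJb := fa.Jbd x ell hx0
  have hMf := Mf_vg fs
  set I := ∫ τ in Ioi (0 : ℝ), s1 τ ^ 2 with hIdef
  have hI1 : 2 * π * I < 1 / 2 := by
    have h1 : 0 ≤ ell * Mf (Vg s1) := by rw [hMf]; positivity
    linarith
  have hkin : kin s1 ≤ 1 := by
    unfold kin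
    rw [← hIdef]
    linarith
  have hI2 : I ≤ 1 / 12 := by
    have hI0 : 0 ≤ I := integral_nonneg fun t => sq_nonneg _
    nlinarith
  -- first bound on `s`
  have hs2 : ∀ t, 0 ≤ t → s t ≤ 3 / 10 * √t := by
    intro t ht
    have h1 := fa.Vbd t ht
    rw [fs.vg t ht, ← hIdef] at h1
    have h2 : s t ^ 2 ≤ (3 / 10 * √t) ^ 2 := by
      rw [mul_pow, Real.sq_sqrt ht]
      have := mul_le_mul_of_nonneg_left hI2 ht
      nlinarith
    exact le_of_sq_le_sq h2 (by positivity)
  have hphi : ∀ t, 0 < t → |phi x s t| * t ≤ 3 := by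
    intro t ht
    have h3 := fs.phiBd t ht
    have h7 : |phi x s t| * (x + t) ≤ 1 + Mf s := by
      rwa [le_div_iff₀ (by linarith)] at h3
    have h8 : |phi x s t| * t ≤ |phi x s t| * (x + t) :=
      mul_le_mul_of_nonneg_left (by linarith) (abs_nonneg _)
    linarith
  have hcoef : ∀ t ∈ Ioo (0 : ℝ) 1, |ell - phi x s t| * t ≤ 4 := by
    intro t ht
    have h1 := hphi t ht.1
    have h2 : |ell - phi x s t| ≤ ell + |phi x s t| := by
      have := abs_sub ell (phi x s t)
      rwa [abs_of_nonneg hl0] at this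
    have h3 : ell * t ≤ 1 := by nlinarith [ht.1, ht.2]
    calc |ell - phi x s t| * t ≤ (ell + |phi x s t|) * t :=
          mul_le_mul_of_nonneg_right h2 ht.1.le
      _ ≤ 4 := by linarith
  have hs1c : ContinuousOn s1 (Icc 0 1) := hs.cont1.mono Icc_subset_Ici_self
  have hsc : ContinuousOn s (Icc 0 1) := fs.contS.mono Icc_subset_Ici_self
  -- first bound on the oscillation of `s1`
  have hosc : ∀ u v, 0 ≤ u → u ≤ v → v ≤ 1 → |s1 v - s1 u| ≤ 12 / 5 * √v - 12 / 5 * √u := by
    intro u v hu huv hv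
    refine lip_of_deriv (f := s1) (f' := fun t => (ell - phi x s t) * s t)
      (b := fun t => 12 / 5 * √t) (b' := fun t => 12 / 5 * (1 / (2 * √t))) hs1c
      (by fun_prop) (fun t ht => hs.der1 t ht.1)
      (fun t ht => (Real.hasDerivAt_sqrt ht.1.ne').const_mul _) ?_ hu huv hv
    intro t ht
    have ht0 := ht.1
    have h1 := hcoef t ht
    have h2 := hs2 t ht0.le
    have h3 : 0 < √t := Real.sqrt_pos.mpr ht0
    have h4 : √t * √t = t := Real.mul_self_sqrt ht0.le
    rw [abs_mul, abs_of_pos (hs.pos t ht0)]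
    have h5 : 12 / 5 * (1 / (2 * √t)) = 6 / 5 / √t := by field_simp; norm_num
    rw [h5, le_div_iff₀ h3]
    calc |ell - phi x s t| * s t * √t ≤ |ell - phi x s t| * (3 / 10 * √t) * √t := by gcongr
      _ = 3 / 10 * (|ell - phi x s t| * (√t * √t)) := by ring
      _ = 3 / 10 * (|ell - phi x s t| * t) := by rw [h4]
      _ ≤ 6 / 5 := by linarith
  -- a point with small derivative
  obtain ⟨ξ, hξ, hξs⟩ : ∃ ξ ∈ Ioo (0 : ℝ) 1, s1 ξ = (s 1 - s 0) / (1 - 0) :=
    exists_hasDerivAt_eq_slope s s1 one_pos hsc fun t ht => hs.der t ht.1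
  have hξ3 : |s1 ξ| ≤ 3 / 10 := by
    rw [hξs, hs.zero, sub_zero, sub_zero, div_one, abs_of_pos (hs.pos 1 one_pos)]
    have := hs2 1 zero_le_one
    simpa using this
  have hb27 : ∀ t ∈ Icc (0 : ℝ) 1, |s1 t| ≤ 27 / 10 := by
    intro t ht
    have h0 : 0 ≤ √t := Real.sqrt_nonneg t
    have h0' : 0 ≤ √ξ := Real.sqrt_nonneg ξ
    have h1 : √t ≤ 1 := by rw [Real.sqrt_le_left zero_le_one]; linarith [ht.2]
    have h1' : √ξ ≤ 1 := by rw [Real.sqrt_le_left zero_le_one]; linarith [hξ.2]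
    rcases le_total t ξ with h | h
    · have h2 := hosc t ξ ht.1 h hξ.2.le
      rw [abs_sub_comm] at h2
      have h3 := abs_sub_abs_le_abs_sub (s1 t) (s1 ξ)
      linarith
    · have h2 := hosc ξ t hξ.1.le h ht.2
      have h3 := abs_sub_abs_le_abs_sub (s1 t) (s1 ξ)
      linarith
  have hs27 : ∀ t ∈ Icc (0 : ℝ) 1, s t ≤ 27 / 10 * t := by
    intro t ht
    have h1 := lip_of_deriv (f := s) (f' := s1) (b := fun t => 27 / 10 * t)
      (b' := fun _ => 27 / 10) hsc (by fun_prop) (fun t ht => hs.der t ht.1)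
      (fun t _ => by simpa using (hasDerivAt_id' t).const_mul (27 / 10 : ℝ))
      (fun t ht => hb27 t ⟨ht.1.le, ht.2.le⟩) le_rfl ht.1 ht.2
    rw [hs.zero, sub_zero, mul_zero, sub_zero] at h1
    exact (le_abs_self _).trans h1
  refine ⟨hkin, ?_, ?_⟩
  · have := hb27 0 ⟨le_rfl, zero_le_one⟩
    have h2 := le_abs_self (s1 0)
    linarith
  intro t ht
  refine ⟨?_, ?_, ?_⟩
  · have h1 := lip_of_deriv (f := s1) (f' := fun t => (ell - phi x s t) * s t)
      (b := fun t => 54 / 5 * t) (b' := fun _ => 54 / 5) hs1c (by fun_prop)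
      (fun t ht => hs.der1 t ht.1)
      (fun t _ => by simpa using (hasDerivAt_id' t).const_mul (54 / 5 : ℝ))
      (fun t ht => by
        have h2 := hcoef t ht
        have h3 := hs27 t ⟨ht.1.le, ht.2.le⟩
        rw [abs_mul, abs_of_pos (hs.pos t ht.1)]
        calc |ell - phi x s t| * s t ≤ |ell - phi x s t| * (27 / 10 * t) := by gcongr
          _ = 27 / 10 * (|ell - phi x s t| * t) := by ring
          _ ≤ 54 / 5 := by linarith) le_rfl ht.1 ht.2
    rw [mul_zero, sub_zero] at h1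
    linarith [ht.1]
  · have := hs27 t ht
    linarith [ht.1]
  · -- `Sf s t ≤ 4 π 68² t³`
    unfold Sf
    have h1 : ∫ τ in (0 : ℝ)..t, s τ ^ 2 ≤ ∫ _τ in (0 : ℝ)..t, (27 / 10 * t) ^ 2 := by
      refine intervalIntegral.integral_mono_on ht.1 ?_ (by simp) ?_
      · refine ContinuousOn.intervalIntegrable ?_
        rw [uIcc_of_le ht.1]
        exact (hsc.mono (Icc_subset_Icc le_rfl ht.2)).pow 2
      · intro τ hτ
        have h2 := hs27 τ ⟨hτ.1, hτ.2.trans ht.2⟩
        have h3 : 0 ≤ s τ := by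
          rcases hτ.1.eq_or_lt with h | h
          · rw [← h, hs.zero]
          · exact (hs.pos τ h).le
        gcongr
        linarith [hτ.2]
    rw [intervalIntegral.integral_const, sub_zero, smul_eq_mul] at h1
    have ht0 := ht.1
    have h4 : t * (27 / 10 * t) ^ 2 ≤ 68 ^ 2 * t ^ 3 := by
      have : 0 ≤ t ^ 3 := by positivity
      nlinarith
    calc 4 * π * ∫ τ in (0 : ℝ)..t, s τ ^ 2 ≤ 4 * π * (68 ^ 2 * t ^ 3) :=
          mul_le_mul_of_nonneg_left (h1.trans h4) (by positivity)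
      _ = 4 * π * 68 ^ 2 * t ^ 3 := by ring

end Pool.Agent.H41.HM
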