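import Mathlib
import Pool.Agent.H99.HM.Targets
import Pool.Agent.H41.HM.W

/-! # MP_6a9259_mp, module K3 -/

set_option autoImplicit false

namespace Pool.Agent.H41.HM

open MeasureTheory Set Filter Topology Real Pool.Agent.H99.HM

theorem inv_sq_Ioi {x t : ℝ} (hx : 0 ≤ x) (ht : 0 < t) :
    IntegrableOn (fun τ => 1 / (x + τ) ^ 2) (Ioi t) ∧
      ∫ τ in Ioi t, 1 / (x + τ) ^ 2 = 1 / (x + t) := by
  have hder : ∀ τ ∈ Ici t, HasDerivAt (fun τ : ℝ => -(1 / (x + τ))) (1 / (x + τ) ^ 2) τ := by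
    intro τ hτ
    have h0 : x + τ ≠ 0 := by
      have : t ≤ τ := hτ
      linarith
    have h1 : HasDerivAt (fun τ : ℝ => x + τ) 1 τ := (hasDerivAt_id τ).const_add x
    have h2 := (h1.inv h0).neg
    simp only [one_div]
    refine HasDerivAt.congr_deriv h2 ?_
    ring
  have hlim : Tendsto (fun τ : ℝ => -(1 / (x + τ))) atTop (𝓝 0) := by
    have h1 : Tendsto (fun τ : ℝ => x + τ) atTop atTop := tendsto_atTop_add_const_left _ _ tendsto_id
    have h2 := h1.inv_tendsto_atTop.neg
    simpa [one_div] using h2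
  have hnn : ∀ τ ∈ Ioi t, 0 ≤ 1 / (x + τ) ^ 2 := fun τ _ => by positivity
  have hint := integrableOn_Ioi_deriv_of_nonneg' hder hnn hlim
  refine ⟨hint, ?_⟩
  have h1 := integral_Ioi_of_hasDerivAt_of_tendsto' hder hint hlim
  rw [h1]
  ring

theorem pos_of_anti {f : ℝ → ℝ} {R : ℝ} (hf : StrictAntiOn f (Ici R))
    (hlim : Tendsto f atTop (𝓝 0)) : ∀ t, R ≤ t → 0 < f t := by
  intro t ht
  have h1 : 0 ≤ f (t + 1) := by
    by_contra hneg
    have h2 : ∀ᶠ u in atTop, f u ≤ f (t + 1) := by
      filter_upwards [eventually_ge_atTop (t + 1)] with u hu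
      exact hf.antitoneOn (by simp only [mem_Ici]; linarith) (by simp only [mem_Ici]; linarith) hu
    have h3 := le_of_tendsto hlim h2
    exact hneg h3
  have h2 := hf (mem_Ici.mpr ht) (mem_Ici.mpr (by linarith : R ≤ t + 1)) (lt_add_one t)
  linarith

/-- `r / s` is increasing where the Wronskian is positive -/
theorem ratio_mono {x ell ell' : ℝ} {s s1 r r1 : ℝ → ℝ} (hs : Ext x ell s s1)
    (hr : Ext x ell' r r1) {D : Set ℝ} (hD : Convex ℝ D) (hD0 : ∀ t ∈ D, 0 < t)
    (hw : ∀ t ∈ interior D, 0 < s t * r1 t - r t * s1 t) :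
    StrictMonoOn (fun t => r t / s t) D := by
  have hder : ∀ t, 0 < t → HasDerivAt (fun t => r t / s t)
      ((r1 t * s t - r t * s1 t) / s t ^ 2) t :=
    fun t ht => (hr.der t ht).div (hs.der t ht) (hs.pos t ht).ne'
  refine strictMonoOn_of_deriv_pos hD ?_ ?_
  · intro t ht
    exact (hder t (hD0 t ht)).continuousAt.continuousWithinAt
  · intro t ht
    have ht0 : 0 < t := hD0 t (interior_subset ht)
    rw [(hder t ht0).deriv]
    have h1 := hw t ht
    have h2 := hs.pos t ht0
    apply div_pos _ (by positivity)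
    linarith

theorem k3 (hfacts : T_facts) (hW : T_W) : T_K3 := by
  intro x ell s s1 r r1 R hs hr hR hell hsr hS t ht
  have fs := hfacts _ _ _ _ hs
  have fr := hfacts _ _ _ _ hr
  have hx0 := hs.x0
  obtain ⟨w1, w2, w3, w4, w5, w6, w7, w8, w9, w10⟩ := hW _ _ _ _ _ _ hs hr
  have hPpos : ∀ u, R ≤ u → 0 < Psi x ell s r u := by
    intro u hu
    have hu0 : 0 < u := by linarith
    obtain ⟨i1, i2⟩ := inv_sq_Ioi hx0 hu0
    have h1 : ∫ τ in Ioi u, (Sf r τ - Sf s τ) / (x + τ) ^ 2 ≤
        ∫ τ in Ioi u, Mf r * (1 / (x + τ) ^ 2) := by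
      refine setIntegral_mono_on (w1.mono_set (Ioi_subset_Ioi hu0.le)) (i1.const_mul _)
        measurableSet_Ioi fun τ hτ => ?_
      have hτ0 : 0 < τ := lt_trans hu0 hτ
      have h2 := fr.Slt τ hτ0.le
      have h3 := fs.Spos τ hτ0
      rw [mul_one_div]
      gcongr
      linarith
    rw [integral_const_mul, i2] at h1
    unfold Psi
    have h2 : Mf r * (1 / (x + u)) ≤ Mf r / (x + R) := by
      rw [mul_one_div]
      have := fr.mpos
      gcongr
    linarith
  have hanti : StrictAntiOn (fun t => s t * r1 t - r t * s1 t) (Ici R) := by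
    refine strictAntiOn_of_deriv_neg (convex_Ici R) (w6.mono (Ici_subset_Ici.mpr hR.le)) ?_
    intro u hu
    rw [interior_Ici] at hu
    have hu0 : 0 < u := lt_trans hR hu
    rw [(w7 u hu0).deriv]
    have h1 := hPpos u (le_of_lt hu)
    have h2 := hs.pos u hu0
    have h3 := hr.pos u hu0
    have : 0 < Psi x ell s r u * (s u * r u) := by positivity
    linarith
  have hwpos := pos_of_anti hanti w8
  have hratio : StrictMonoOn (fun t => r t / s t) (Ici R) := by
    refine ratio_mono hs hr (convex_Ici R) (fun u hu => lt_of_lt_of_le hR hu) ?_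
    intro u hu
    exact hwpos u (interior_subset hu)
  have hgt : ∀ u, R ≤ u → s u < r u := by
    intro u hu
    have hu0 : 0 < u := by linarith
    have h1 : r R / s R ≤ r u / s u := hratio.monotoneOn self_mem_Ici hu hu
    have h2 : 1 < r R / s R := by rw [lt_div_iff₀ (hs.pos R hR)]; linarith
    have h3 : 1 < r u / s u := lt_of_lt_of_le h2 h1
    rw [lt_div_iff₀ (hs.pos u hu0)] at h3
    linarith
  have hmono : MonotoneOn (fun t => Sf r t - Sf s t) (Ici R) := by
    refine monotoneOn_of_deriv_nonneg (convex_Ici R)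
      ((fr.Scont.sub fs.Scont).mono (Ici_subset_Ici.mpr hR.le)) ?_ ?_
    · intro u hu
      rw [interior_Ici] at hu
      have hu0 : 0 < u := lt_trans hR hu
      exact ((fr.Sder u hu0).sub (fs.Sder u hu0)).differentiableAt.differentiableWithinAt
    · intro u hu
      rw [interior_Ici] at hu
      have hu0 : 0 < u := lt_trans hR hu
      have hd : HasDerivAt (fun t => Sf r t - Sf s t) (4 * π * r u ^ 2 - 4 * π * s u ^ 2) u :=
        (fr.Sder u hu0).sub (fs.Sder u hu0)
      rw [hd.deriv]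
      have h1 := hgt u (le_of_lt hu)
      have h2 := hs.pos u hu0
      have h3 : s u ^ 2 ≤ r u ^ 2 := by gcongr
      have h4 := mul_le_mul_of_nonneg_left h3 (by positivity : 0 ≤ 4 * π)
      linarith
  have h1 : Sf r R - Sf s R ≤ Sf r t - Sf s t := hmono self_mem_Ici ht ht
  linarith

end Pool.Agent.H41.HM
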