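import Mathlib
import Pool.Agent.H99.HM.Targets
import Pool.Agent.H41.HM.En
import Pool.Agent.H41.HM.K3

/-! # MP_6a9259_mp, module LS -/

set_option autoImplicit false

namespace Pool.Agent.H41.HM

open MeasureTheory Set Filter Topology Real Pool.Agent.H99.HM

theorem ls (hfacts : T_facts) (hdom : T_dom) (hW : T_W) (hI3 : T_I3) (hE1 : T_E1) : T_LS := by
  intro x ell s s1 r r1 hs hell hr hS
  have fs := hfacts _ _ _ _ hs
  have fr := hfacts _ _ _ _ hr
  have hx0 := hs.x0
  obtain ⟨w1, w2, w3, w4, w5, w6, w7, w8, w9, w10⟩ := hW _ _ _ _ _ _ hs hr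
  have hPmono : MonotoneOn (Psi x ell s r) (Ici 0) := by
    refine monotoneOn_of_deriv_nonneg (convex_Ici 0) w3 ?_ ?_
    · intro t ht
      rw [interior_Ici] at ht
      exact (w5 t ht).differentiableAt.differentiableWithinAt
    · intro t ht
      rw [interior_Ici] at ht
      rw [(w5 t ht).deriv]
      have h1 := hS t (le_of_lt ht)
      have h2 : 0 ≤ Sf r t - Sf s t := by linarith
      positivity
  have hPle : ∀ t, 0 ≤ t → Psi x ell s r t ≤ ell := by
    intro t ht
    refine ge_of_tendsto w4 ?_
    filter_upwards [eventually_ge_atTop t] with u hu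
    exact hPmono ht (ht.trans hu) hu
  set w : ℝ → ℝ := fun t => s t * r1 t - r t * s1 t with hwdef
  have hw0 : w 0 = 0 := by
    simp only [hwdef]
    rw [hs.zero, hr.zero]
    ring
  -- the Wronskian is positive
  have hwpos : ∀ t, 0 < t → 0 < w t := by
    intro t ht
    by_contra hneg
    push Not at hneg
    rcases lt_or_ge 0 (Psi x ell s r t) with hP | hP
    · -- Psi positive after t
      have hanti : StrictAntiOn w (Ici t) := by
        refine strictAntiOn_of_deriv_neg (convex_Ici t) (w6.mono (Ici_subset_Ici.mpr ht.le)) ?_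
        intro u hu
        rw [interior_Ici] at hu
        have hu0 : 0 < u := lt_trans ht hu
        rw [(w7 u hu0).deriv]
        have h1 : Psi x ell s r t ≤ Psi x ell s r u := hPmono ht.le hu0.le (le_of_lt hu)
        have h2 := hs.pos u hu0
        have h3 := hr.pos u hu0
        have : 0 < Psi x ell s r u * (s u * r u) := by
          have : 0 < Psi x ell s r u := by linarith
          positivity
        linarith
      have := pos_of_anti hanti w8 t le_rfl
      linarith
    · -- Psi nonpositive before t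
      have hmono : MonotoneOn w (Icc 0 t) := by
        refine monotoneOn_of_deriv_nonneg (convex_Icc 0 t) (w6.mono Icc_subset_Ici_self) ?_ ?_
        · intro u hu
          rw [interior_Icc] at hu
          exact (w7 u hu.1).differentiableAt.differentiableWithinAt
        · intro u hu
          rw [interior_Icc] at hu
          rw [(w7 u hu.1).deriv]
          have h1 : Psi x ell s r u ≤ Psi x ell s r t := hPmono hu.1.le ht.le hu.2.le
          have h2 := hs.pos u hu.1
          have h3 := hr.pos u hu.1
          have : 0 ≤ (- Psi x ell s r u) * (s u * r u) := mul_nonneg (by linarith) (by positivity)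
          linarith
      have hzero : ∀ u ∈ Icc 0 t, w u = 0 := by
        intro u hu
        have h1 : w 0 ≤ w u := hmono ⟨le_rfl, ht.le⟩ hu hu.1
        have h2 : w u ≤ w t := hmono hu ⟨ht.le, le_rfl⟩ hu.2
        rw [hw0] at h1
        linarith
      have hP0 : ∀ u ∈ Ioo 0 t, Psi x ell s r u = 0 := by
        intro u hu
        have h1 : HasDerivAt w 0 u := by
          have h2 : HasDerivAt (fun _ : ℝ => (0 : ℝ)) 0 u := hasDerivAt_const u 0
          refine h2.congr_of_eventuallyEq ?_
          filter_upwards [Ioo_mem_nhds hu.1 hu.2] with v hv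
          exact hzero v ⟨hv.1.le, hv.2.le⟩
        have h2 := (w7 u hu.1).unique h1
        have h3 : Psi x ell s r u * (s u * r u) = 0 := by linarith
        have h4 := hs.pos u hu.1
        have h5 := hr.pos u hu.1
        exact (mul_eq_zero.mp h3).resolve_right (by positivity)
      have hPnn : ∀ u, 0 < u → 0 ≤ Psi x ell s r u := by
        intro u hu
        have hm : 0 < min u t / 2 := by positivity
        have h1 : Psi x ell s r (min u t / 2) = 0 :=
          hP0 _ ⟨hm, by have := min_le_right u t; linarith⟩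
        have h2 : Psi x ell s r (min u t / 2) ≤ Psi x ell s r u :=
          hPmono hm.le hu.le (by have := min_le_left u t; linarith)
        linarith
      have hanti : AntitoneOn w (Ici 0) := by
        refine antitoneOn_of_deriv_nonpos (convex_Ici 0) w6 ?_ ?_
        · intro u hu
          rw [interior_Ici] at hu
          exact (w7 u hu).differentiableAt.differentiableWithinAt
        · intro u hu
          rw [interior_Ici] at hu
          rw [(w7 u hu).deriv]
          have h1 := hPnn u hu
          have h2 := hs.pos u hu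
          have h3 := hr.pos u hu
          have : 0 ≤ Psi x ell s r u * (s u * r u) := by positivity
          linarith
      have hz : ∀ u, 0 ≤ u → w u = 0 := by
        intro u hu
        have h1 : w u ≤ w 0 := hanti self_mem_Ici hu hu
        have h2 : 0 ≤ w u := by
          refine le_of_tendsto w8 ?_
          filter_upwards [eventually_ge_atTop u] with v hv
          exact hanti hu (hu.trans hv) hv
        rw [hw0] at h1
        linarith
      have hPz : ∀ u, 0 < u → Psi x ell s r u = 0 := by
        intro u hu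
        have h1 : HasDerivAt w 0 u := by
          have h2 : HasDerivAt (fun _ : ℝ => (0 : ℝ)) 0 u := hasDerivAt_const u 0
          refine h2.congr_of_eventuallyEq ?_
          filter_upwards [lt_mem_nhds hu] with v hv
          exact hz v hv.le
        have h2 := (w7 u hu).unique h1
        have h3 : Psi x ell s r u * (s u * r u) = 0 := by linarith
        have h4 := hs.pos u hu
        have h5 := hr.pos u hu
        exact (mul_eq_zero.mp h3).resolve_right (by positivity)
      have : ell = 0 := by
        refine tendsto_nhds_unique w4 ?_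
        refine tendsto_const_nhds.congr' ?_
        filter_upwards [eventually_gt_atTop 0] with u hu
        exact (hPz u hu).symm
      linarith
  -- the quotient
  have hratio : StrictMonoOn (fun t => r t / s t) (Ioi 0) := by
    refine ratio_mono hs hr (convex_Ioi 0) (fun t ht => ht) ?_
    intro t ht
    rw [interior_Ioi] at ht
    exact hwpos t ht
  have hder : ∀ t, 0 < t → HasDerivAt (fun t => Sf r t - Sf s t)
      (4 * π * r t ^ 2 - 4 * π * s t ^ 2) t := fun t ht => (fr.Sder t ht).sub (fs.Sder t ht)
  have hDcont : ContinuousOn (fun t => Sf r t - Sf s t) (Ici 0) := fr.Scont.sub fs.Scont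
  have hsr : ∀ t, 0 < t → s t < r t := by
    intro t ht
    by_contra hneg
    push Not at hneg
    have hlt : ∀ u ∈ Ioo 0 t, r u < s u := by
      intro u hu
      have h1 : r u / s u < r t / s t := hratio hu.1 ht hu.2
      have h2 : r t / s t ≤ 1 := by rw [div_le_one (hs.pos t ht)]; exact hneg
      have h3 : r u / s u < 1 := lt_of_lt_of_le h1 h2
      rwa [div_lt_one (hs.pos u hu.1)] at h3
    have hanti : StrictAntiOn (fun t => Sf r t - Sf s t) (Icc 0 t) := by
      refine strictAntiOn_of_deriv_neg (convex_Icc 0 t) (hDcont.mono Icc_subset_Ici_self) ?_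
      intro u hu
      rw [interior_Icc] at hu
      rw [(hder u hu.1).deriv]
      have h1 := hlt u hu
      have h2 := hr.pos u hu.1
      have h3 : r u ^ 2 < s u ^ 2 := by gcongr
      have h4 := mul_lt_mul_of_pos_left h3 (by positivity : 0 < 4 * π)
      linarith
    have h1 : Sf r t - Sf s t < Sf r 0 - Sf s 0 := hanti ⟨le_rfl, ht.le⟩ ⟨ht.le, le_rfl⟩ ht
    rw [fs.S0, fr.S0] at h1
    have h2 := hS t ht.le
    linarith
  refine ⟨?_, hsr⟩
  -- Δ > 0
  have hDpos : ∀ t, 0 < t → 0 < Sf r t - Sf s t := by
    intro t ht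
    have hmono : StrictMonoOn (fun t => Sf r t - Sf s t) (Ici 0) := by
      refine strictMonoOn_of_deriv_pos (convex_Ici 0) hDcont ?_
      intro u hu
      rw [interior_Ici] at hu
      rw [(hder u hu).deriv]
      have h1 := hsr u hu
      have h2 := hs.pos u hu
      have h3 : s u ^ 2 < r u ^ 2 := by gcongr
      have h4 := mul_lt_mul_of_pos_left h3 (by positivity : 0 < 4 * π)
      linarith
    have h1 : Sf r 0 - Sf s 0 < Sf r t - Sf s t := hmono self_mem_Ici ht.le ht
    rw [fs.S0, fr.S0] at h1
    linarith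
  -- the derivatives at zero
  have hle : s1 0 ≤ r1 0 := by
    have h1 : HasDerivWithinAt (fun t => r t - s t) (r1 0 - s1 0) (Ici 0) 0 :=
      hr.der0.sub hs.der0
    have h2 : Tendsto (slope (fun t => r t - s t) 0) (𝓝[>] 0) (𝓝 (r1 0 - s1 0)) := by
      rw [hasDerivWithinAt_iff_tendsto_slope] at h1
      refine h1.mono_left (nhdsWithin_mono 0 ?_)
      intro t ht
      have ht0 : 0 < t := ht
      exact ⟨mem_Ici.mpr ht0.le, ht0.ne'⟩
    have h3 : 0 ≤ r1 0 - s1 0 := by
      refine ge_of_tendsto h2 ?_
      filter_upwards [self_mem_nhdsWithin] with t ht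
      have ht0 : 0 < t := ht
      rw [slope_def_field, hs.zero, hr.zero]
      have := hsr t ht0
      apply div_nonneg <;> linarith
    linarith
  refine lt_of_le_of_ne hle ?_
  intro heq
  obtain ⟨s12, s13⟩ := Iw_int hdom hx0 fs 1 le_rfl
  obtain ⟨s22, s23⟩ := Iw_int hdom hx0 fs 2 (by norm_num)
  obtain ⟨r12, r13⟩ := Iw_int hdom hx0 fr 1 le_rfl
  obtain ⟨r22, r23⟩ := Iw_int hdom hx0 fr 2 (by norm_num)
  -- the integral with `1/(x+t)^3` vanishes
  let D : ℝ → ℝ := fun t => (Sf r t - Sf s t) * (1 - (Sf r t + Sf s t) / 2)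
  have hDsplit : (fun t => D t / (x + t) ^ 3) = fun t =>
      (Sf r t ^ 1 / (x + t) ^ 3 - Sf s t ^ 1 / (x + t) ^ 3) -
      1 / 2 * (Sf r t ^ 2 / (x + t) ^ 3 - Sf s t ^ 2 / (x + t) ^ 3) := by
    ext t
    simp only [D]
    ring
  have hDint : IntegrableOn (fun t => D t / (x + t) ^ 3) (Ioi 0) := by
    rw [hDsplit]
    exact (r13.sub s13).sub ((r23.sub s23).const_mul _)
  have hD0 : ∫ t in Ioi (0 : ℝ), D t / (x + t) ^ 3 = 0 := by
    have e1 : ∫ t in Ioi (0 : ℝ), ((Sf r t ^ 1 / (x + t) ^ 3 - Sf s t ^ 1 / (x + t) ^ 3) -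
        1 / 2 * (Sf r t ^ 2 / (x + t) ^ 3 - Sf s t ^ 2 / (x + t) ^ 3)) =
        (∫ t in Ioi (0 : ℝ), (Sf r t ^ 1 / (x + t) ^ 3 - Sf s t ^ 1 / (x + t) ^ 3)) -
        ∫ t in Ioi (0 : ℝ), 1 / 2 * (Sf r t ^ 2 / (x + t) ^ 3 - Sf s t ^ 2 / (x + t) ^ 3) :=
      integral_sub (r13.sub s13) ((r23.sub s23).const_mul _)
    rw [hDsplit, e1, integral_const_mul, integral_sub r13 s13, integral_sub r23 s23]
    have e2 := hE1 _ _ _ _ hs
    have e3 := hE1 _ _ _ _ hr
    rw [← heq] at e3
    have e4 : 2 * Iw 1 3 x r - Iw 2 3 x r = 2 * Iw 1 3 x s - Iw 2 3 x s := by linarith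
    unfold Iw at e4
    linarith
  -- the mean `Sb`
  let Sb : ℝ → ℝ := fun t => (Sf r t + Sf s t) / 2
  have hSbmono : StrictMonoOn Sb (Ici 0) := by
    intro a ha b hb hab
    have h1 := fr.Smono ha hb hab
    have h2 := fs.Smono ha hb hab
    simp only [Sb]
    linarith
  have hSbcont : ContinuousOn Sb (Ici 0) := (fr.Scont.add fs.Scont).div_const 2
  by_cases hcase : ∀ t, 0 < t → Sb t < 1
  · have h1 : 0 < ∫ t in Ioi (0 : ℝ), D t / (x + t) ^ 3 := by
      refine setInt_pos hDint fun t ht => ?_
      have h2 := hDpos t ht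
      have h3 : 0 < 1 - (Sf r t + Sf s t) / 2 := by
        have := hcase t ht
        simp only [Sb] at this
        linarith
      simp only [D]
      positivity
    linarith
  · push Not at hcase
    obtain ⟨t2, ht2, hSt2⟩ := hcase
    obtain ⟨t1, ht1, hSt1⟩ : ∃ t1 ∈ Icc (0 : ℝ) t2, Sb t1 = 1 := by
      have h1 : ContinuousOn Sb (Icc 0 t2) := hSbcont.mono Icc_subset_Ici_self
      have h2 : (1 : ℝ) ∈ Icc (Sb 0) (Sb t2) := by
        refine ⟨?_, hSt2⟩
        simp only [Sb]
        rw [fs.S0, fr.S0]
        norm_num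
      exact intermediate_value_Icc ht2.le h1 h2
    obtain ⟨i1, i2, i3⟩ := hI3 _ _ _ _ _ _ hs hr
    -- the left side is nonpositive
    have hL : ∫ t in Ioi (0 : ℝ), (1 / (x + t) ^ 2 + 2 * x / (x + t) ^ 3) * D t ≤ 0 := by
      have h1 : ∫ t in Ioi (0 : ℝ), (1 / (x + t) ^ 2 + 2 * x / (x + t) ^ 3) * D t =
          ∫ t in Ioi (0 : ℝ), (((1 / (x + t) ^ 2 + 2 * x / (x + t) ^ 3) * D t) -
            (t1 + 3 * x) * (D t / (x + t) ^ 3)) := by
        rw [integral_sub i1 (hDint.const_mul _), integral_const_mul, hD0]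
        ring
      rw [h1]
      refine setIntegral_nonpos measurableSet_Ioi fun t ht => ?_
      have ht0 : 0 < t := ht
      have hxt : 0 < x + t := by linarith
      have h2 : (1 / (x + t) ^ 2 + 2 * x / (x + t) ^ 3) * D t -
          (t1 + 3 * x) * (D t / (x + t) ^ 3) =
          ((Sf r t - Sf s t) / (x + t) ^ 3) * ((t - t1) * (1 - Sb t)) := by
        simp only [D, Sb]
        have := hxt.ne'
        field_simp
        ring
      rw [h2]
      have h3 : 0 ≤ (Sf r t - Sf s t) / (x + t) ^ 3 := by
        have := hDpos t ht0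
        positivity
      refine mul_nonpos_of_nonneg_of_nonpos h3 ?_
      rcases le_total t t1 with h | h
      · have h4 : Sb t ≤ Sb t1 := hSbmono.monotoneOn ht0.le ht1.1 h
        exact mul_nonpos_of_nonpos_of_nonneg (by linarith) (by linarith)
      · have h4 : Sb t1 ≤ Sb t := hSbmono.monotoneOn ht1.1 ht0.le h
        exact mul_nonpos_of_nonneg_of_nonpos (by linarith) (by linarith)
    -- the right side is positive
    have hR : 4 * π * ∫ t in Ioi (0 : ℝ), Psi x ell s r t * (s t - r t) ^ 2 <
        ell * (Mf r - Mf s) := by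
      have hsrint : IntegrableOn (fun t => s t * r t) (Ioi 0) :=
        int_mul fs.contS fr.contS hs.int0 hr.int0
      have hq : IntegrableOn (fun t => (s t - r t) ^ 2) (Ioi 0) := by
        have : (fun t => (s t - r t) ^ 2) = fun t => (s t ^ 2 + r t ^ 2) - 2 * (s t * r t) := by
          ext t; ring
        rw [this]
        exact (hs.int0.add hr.int0).sub (hsrint.const_mul 2)
      have h1 : ∫ t in Ioi (0 : ℝ), Psi x ell s r t * (s t - r t) ^ 2 ≤
          ∫ t in Ioi (0 : ℝ), ell * (s t - r t) ^ 2 := by
        refine setIntegral_mono_on i2 (hq.const_mul _) measurableSet_Ioi fun t ht => ?_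
        exact mul_le_mul_of_nonneg_right (hPle t (le_of_lt ht)) (sq_nonneg _)
      rw [integral_const_mul] at h1
      have hd : IntegrableOn (fun t => r t ^ 2 - s t ^ 2) (Ioi 0) := hr.int0.sub hs.int0
      have h2 : 0 < ∫ t in Ioi (0 : ℝ), ((r t ^ 2 - s t ^ 2) - (s t - r t) ^ 2) := by
        refine setInt_pos (hd.sub hq) fun t ht => ?_
        have h3 := hsr t ht
        have h4 := hs.pos t ht
        have h5 : (r t ^ 2 - s t ^ 2) - (s t - r t) ^ 2 = 2 * s t * (r t - s t) := by ring
        rw [h5]
        exact mul_pos (by positivity) (by linarith)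
      rw [integral_sub hd hq, integral_sub hr.int0 hs.int0] at h2
      have h3 : ell * (Mf r - Mf s) = 4 * π * (ell *
          ((∫ t in Ioi (0 : ℝ), r t ^ 2) - ∫ t in Ioi (0 : ℝ), s t ^ 2)) := by
        unfold Mf
        ring
      rw [h3]
      apply mul_lt_mul_of_pos_left _ (by positivity : 0 < 4 * π)
      refine h1.trans_lt ?_
      apply mul_lt_mul_of_pos_left _ hell
      linarith
    have h5 : ∫ t in Ioi (0 : ℝ), (1 / (x + t) ^ 2 + 2 * x / (x + t) ^ 3) * D t =
      ell * (Mf r - Mf s) - 4 * π * ∫ t in Ioi (0 : ℝ), Psi x ell s r t * (s t - r t) ^ 2 := i3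
    linarith

end Pool.Agent.H41.HM
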