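import Mathlib
import Pool.Agent.H99.HM.Targets
import Pool.Agent.H41.HM.Ball
import Pool.Agent.H41.HM.K3

/-! # MP_6a9259_mp, module NEWT -/

set_option autoImplicit false

namespace Pool.Agent.H41.HM

open MeasureTheory Set Filter Topology Real Pool.Agent.H99.HM
open scoped ENNReal

/-- null sets of radii -/
theorem ae_norm (hp : T_polar) {p : ℝ → Prop} (h : ∀ᵐ r ∂(volume.restrict (Ioi (0 : ℝ))), p r) :
    ∀ᵐ y : E3, p ‖y‖ := by
  rw [ae_iff] at h
  set N := toMeasurable (volume.restrict (Ioi (0 : ℝ))) {r | ¬ p r} with hN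
  have hN0 : (volume.restrict (Ioi (0 : ℝ))) N = 0 := by rw [hN, measure_toMeasurable]; exact h
  have hNm : MeasurableSet N := measurableSet_toMeasurable _ _
  have hz : ∀ᵐ r ∂(volume.restrict (Ioi (0 : ℝ))), r ^ 2 * N.indicator (fun _ => (1 : ℝ)) r = 0 := by
    have h1 : ∀ᵐ r ∂(volume.restrict (Ioi (0 : ℝ))), r ∉ N := by
      rw [ae_iff]
      simpa using hN0
    filter_upwards [h1] with r hr
    rw [indicator_of_notMem hr, mul_zero]
  have hint : IntegrableOn (fun r : ℝ => r ^ 2 * N.indicator (fun _ => (1 : ℝ)) r) (Ioi 0) :=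
    (integrable_zero ℝ ℝ (volume.restrict (Ioi (0 : ℝ)))).congr
      (by filter_upwards [hz] with r hr; exact hr.symm)
  obtain ⟨h1, h2⟩ := hp.2 (N.indicator (fun _ => (1 : ℝ)))
  have h3 : Integrable (fun x : E3 => N.indicator (fun _ => (1 : ℝ)) ‖x‖) := h1.mpr hint
  have h4 : ∫ x : E3, N.indicator (fun _ => (1 : ℝ)) ‖x‖ = 0 := by
    rw [h2, integral_congr_ae hz]
    simp
  have h5 : 0 ≤ fun x : E3 => N.indicator (fun _ => (1 : ℝ)) ‖x‖ := fun x =>
    indicator_nonneg (fun _ _ => zero_le_one) _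
  rw [integral_eq_zero_iff_of_nonneg h5 h3] at h4
  filter_upwards [h4] with y hy
  by_contra hcon
  have h6 : ‖y‖ ∈ N := subset_toMeasurable _ _ hcon
  rw [Pi.zero_apply, indicator_of_mem h6] at hy
  exact one_ne_zero hy

theorem Vb_nonneg {X R : ℝ} (hX : 0 ≤ X) (hR : 0 < R) : 0 ≤ Vb X R := by
  unfold Vb
  split_ifs with h
  · positivity
  · have h2 := not_le.mp h
    have h3 : X ^ 2 ≤ R ^ 2 := by gcongr
    have h4 := mul_le_mul_of_nonneg_left h3 (by positivity : 0 ≤ 2 * π / 3)
    nlinarith [Real.pi_pos, sq_nonneg R, mul_nonneg Real.pi_pos.le (sq_nonneg R)]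

/-- the radial side -/
theorem rad_int {X R : ℝ} (hX : 0 < X) (hR : 0 < R) :
    ∫ r in (0 : ℝ)..R, 4 * π * r ^ 2 / max X r = Vb X R := by
  have hcont : Continuous fun r : ℝ => 4 * π * r ^ 2 / max X r := by
    refine Continuous.div (by fun_prop) (by fun_prop) fun r => ?_
    exact (lt_of_lt_of_le hX (le_max_left X r)).ne'
  have k1 : ∀ a b : ℝ, ∫ r in a..b, 4 * π * r ^ 2 / X = 4 * π * (b ^ 3 - a ^ 3) / (3 * X) := by
    intro a b
    have hd : ∀ r : ℝ, HasDerivAt (fun r => 4 * π * r ^ 3 / (3 * X)) (4 * π * r ^ 2 / X) r := by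
      intro r
      refine HasDerivAt.congr_deriv (((hasDerivAt_pow 3 r).const_mul (4 * π)).div_const (3 * X)) ?_
      simp
      field_simp
    rw [intervalIntegral.integral_eq_sub_of_hasDerivAt (fun r _ => hd r)
      ((by fun_prop : Continuous fun r : ℝ => 4 * π * r ^ 2 / X).intervalIntegrable _ _)]
    ring
  have k2 : ∀ a b : ℝ, ∫ r in a..b, 4 * π * r = 2 * π * (b ^ 2 - a ^ 2) := by
    intro a b
    rw [intervalIntegral.integral_const_mul, integral_id]
    ring
  unfold Vb
  split_ifs with h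
  · have h1 : ∫ r in (0 : ℝ)..R, 4 * π * r ^ 2 / max X r =
        ∫ r in (0 : ℝ)..R, 4 * π * r ^ 2 / X := by
      refine intervalIntegral.integral_congr fun r hr => ?_
      rw [uIcc_of_le hR.le] at hr
      simp only [max_eq_left (hr.2.trans h)]
    rw [h1, k1]
    ring
  · have h' := (not_le.mp h).le
    rw [← intervalIntegral.integral_add_adjacent_intervals (hcont.intervalIntegrable 0 X)
      (hcont.intervalIntegrable X R)]
    have h1 : ∫ r in (0 : ℝ)..X, 4 * π * r ^ 2 / max X r =
        ∫ r in (0 : ℝ)..X, 4 * π * r ^ 2 / X := by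
      refine intervalIntegral.integral_congr fun r hr => ?_
      rw [uIcc_of_le hX.le] at hr
      simp only [max_eq_left hr.2]
    have h2 : ∫ r in X..R, 4 * π * r ^ 2 / max X r = ∫ r in X..R, 4 * π * r := by
      refine intervalIntegral.integral_congr fun r hr => ?_
      rw [uIcc_of_le h'] at hr
      have : r ≠ 0 := (lt_of_lt_of_le hX hr.1).ne'
      simp only [max_eq_right hr.1]
      field_simp
    rw [h1, h2, k1, k2]
    field_simp
    ring

theorem meas_eq {x : E3} (hx : x ≠ 0) :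
    ((volume : Measure E3).withDensity (fun y => ENNReal.ofReal (1 / ‖x - y‖))).map (fun y => ‖y‖) =
      (volume.restrict (Ioi (0 : ℝ))).withDensity
        (fun r => ENNReal.ofReal (4 * π * r ^ 2 / max ‖x‖ r)) := by
  have hX : 0 < ‖x‖ := norm_pos_iff.mpr hx
  set ν1 := ((volume : Measure E3).withDensity (fun y => ENNReal.ofReal (1 / ‖x - y‖))).map
    (fun y => ‖y‖)
  set ν2 := (volume.restrict (Ioi (0 : ℝ))).withDensity
        (fun r => ENNReal.ofReal (4 * π * r ^ 2 / max ‖x‖ r))
  have hm : Measurable (fun y : E3 => ‖y‖) := measurable_norm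
  have h1 : ∀ R : ℝ, ν1 (Iio R) = if 0 < R then ENNReal.ofReal (Vb ‖x‖ R) else 0 := by
    intro R
    have hpre : (fun y : E3 => ‖y‖) ⁻¹' (Iio R) = Metric.ball 0 R := by
      ext y; simp
    rw [Measure.map_apply hm measurableSet_Iio, hpre, withDensity_apply _ measurableSet_ball]
    split_ifs with h
    · exact ball_lint x h
    · rw [Metric.ball_eq_empty.mpr (not_lt.mp h)]
      simp
  have hcont : Continuous fun r : ℝ => 4 * π * r ^ 2 / max ‖x‖ r := by
    refine Continuous.div (by fun_prop) (by fun_prop) fun r => ?_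
    exact (lt_of_lt_of_le hX (le_max_left _ r)).ne'
  have h2 : ∀ R : ℝ, ν2 (Iio R) = if 0 < R then ENNReal.ofReal (Vb ‖x‖ R) else 0 := by
    intro R
    rw [withDensity_apply _ measurableSet_Iio, Measure.restrict_restrict measurableSet_Iio]
    have hI : Iio R ∩ Ioi 0 = Ioo 0 R := by ext y; simp [and_comm]
    rw [hI]
    split_ifs with h
    · rw [← rad_int hX h, intervalIntegral.integral_of_le h.le, integral_Ioc_eq_integral_Ioo]
      refine (ofReal_integral_eq_lintegral_ofReal
        ((hcont.integrableOn_Icc (a := 0) (b := R)).mono_set Ioo_subset_Icc_self) ?_).symm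
      refine Eventually.of_forall fun r => ?_
      simp only [Pi.zero_apply]
      have : 0 < max ‖x‖ r := lt_of_lt_of_le hX (le_max_left _ r)
      positivity
    · rw [Ioo_eq_empty (by simpa using h)]
      simp
  have hfin : ∀ R : ℝ, ν1 (Iio R) ≠ ∞ := by
    intro R
    rw [h1]
    split_ifs <;> simp
  refine Measure.ext_of_Ico' ν1 ν2 ?_ ?_
  · intro a b _
    exact ne_top_of_le_ne_top (hfin b) (measure_mono Ico_subset_Iio_self)
  · intro a b hab
    have hI : Ico a b = Iio b \ Iio a := by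
      ext y
      simp only [mem_Ico, Set.mem_sdiff, mem_Iio, not_lt]
      exact and_comm
    have h12 : ∀ R, ν1 (Iio R) = ν2 (Iio R) := fun R => by rw [h1, h2]
    rw [hI, measure_sdiff (Iio_subset_Iio hab.le) measurableSet_Iio.nullMeasurableSet (hfin a),
      measure_sdiff (Iio_subset_Iio hab.le) measurableSet_Iio.nullMeasurableSet
        (by rw [← h12]; exact hfin a), h12, h12]

theorem lint_radial {x : E3} (hx : x ≠ 0) {g : ℝ → ℝ≥0∞} (hg : Measurable g) :
    ∫⁻ y : E3, ENNReal.ofReal (1 / ‖x - y‖) * g ‖y‖ =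
      ∫⁻ r in Ioi (0 : ℝ), ENNReal.ofReal (4 * π * r ^ 2 / max ‖x‖ r) * g r := by
  have hm : Measurable (fun y : E3 => ‖y‖) := measurable_norm
  have hd1 : Measurable (fun y : E3 => ENNReal.ofReal (1 / ‖x - y‖)) := by fun_prop
  have hd2 : Measurable (fun r : ℝ => ENNReal.ofReal (4 * π * r ^ 2 / max ‖x‖ r)) := by fun_prop
  have h1 := lintegral_map (μ := (volume : Measure E3).withDensity
    (fun y => ENNReal.ofReal (1 / ‖x - y‖))) hg hm
  rw [meas_eq hx, lintegral_withDensity_eq_lintegral_mul _ hd2 hg] at h1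
  have h2 : ∫⁻ a, g ‖a‖ ∂((volume : Measure E3).withDensity
      (fun y => ENNReal.ofReal (1 / ‖x - y‖))) =
      ∫⁻ y : E3, ENNReal.ofReal (1 / ‖x - y‖) * g ‖y‖ :=
    lintegral_withDensity_eq_lintegral_mul _ hd1 (hg.comp hm)
  rw [h2] at h1
  exact h1.symm

theorem newton (hp : T_polar) (hr : T_radm) : T_newton := by
  intro u f hu huf x hx
  have hX : 0 < ‖x‖ := norm_pos_iff.mpr hx
  obtain ⟨hmem, _⟩ := hr u f hu huf
  set X := ‖x‖ with hXdef
  -- the density
  let Q : ℝ → ℝ := fun r => 4 * π * rf f r ^ 2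
  have hQnn : ∀ r, 0 ≤ Q r := fun r => by simp only [Q]; positivity
  have hqint : IntegrableOn (fun r => rf f r ^ 2) (Ioi 0) := by
    have h1 := hmem.norm.integrable_sq
    exact h1
  have hQint : IntegrableOn Q (Ioi 0) := hqint.const_mul _
  -- a measurable representative
  have hQae : AEMeasurable (fun r => ENNReal.ofReal (Q r)) (volume.restrict (Ioi 0)) :=
    hQint.aestronglyMeasurable.aemeasurable.ennreal_ofReal
  set g := hQae.mk _ with hg
  have hgm : Measurable g := hQae.measurable_mk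
  have hgae : ∀ᵐ r ∂(volume.restrict (Ioi (0 : ℝ))), ENNReal.ofReal (Q r) = g r := hQae.ae_eq_mk
  -- Step 1
  have step1 : ∫⁻ y : E3, ENNReal.ofReal (‖u y‖ ^ 2 / ‖x - y‖) =
      ∫⁻ r in Ioi (0 : ℝ), ENNReal.ofReal (1 / max X r) * g r := by
    have hg2 : Measurable fun r : ℝ => ENNReal.ofReal (1 / (4 * π * r ^ 2)) * g r := by fun_prop
    have h1 : ∀ᵐ y : E3, ENNReal.ofReal (‖u y‖ ^ 2 / ‖x - y‖) =
        ENNReal.ofReal (1 / ‖x - y‖) * (ENNReal.ofReal (1 / (4 * π * ‖y‖ ^ 2)) * g ‖y‖) := by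
      have hy0 : ∀ᵐ y : E3, y ≠ 0 := by
        rw [ae_iff]
        simp
      filter_upwards [huf, ae_norm hp hgae, hy0] with y hy1 hy2 hy3
      have hn : 0 < ‖y‖ := norm_pos_iff.mpr hy3
      rw [← hy2, ← ENNReal.ofReal_mul (by positivity), ← ENNReal.ofReal_mul (by positivity), hy1]
      congr 1
      simp only [Q, rf, norm_mul, Complex.norm_real, norm_norm]
      field_simp
    rw [lintegral_congr_ae h1, lint_radial hx hg2]
    refine setLIntegral_congr_fun measurableSet_Ioi fun r hr0 => ?_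
    have hr0' : 0 < r := hr0
    have hmax : 0 < max X r := lt_of_lt_of_le hX (le_max_left _ r)
    rw [← mul_assoc, ← ENNReal.ofReal_mul (by positivity)]
    congr 2
    rw [← hXdef]
    field_simp
  -- Step 2
  have hSval : ∀ t, 0 ≤ t → ENNReal.ofReal (Sf (rf f) t) = ∫⁻ r in Ioc 0 t, g r := by
    intro t ht
    have h1 : Sf (rf f) t = ∫ r in Ioc 0 t, Q r := by
      unfold Sf
      rw [intervalIntegral.integral_of_le ht, ← integral_const_mul]
    rw [h1, ofReal_integral_eq_lintegral_ofReal (hQint.mono_set Ioc_subset_Ioi_self)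
      (Eventually.of_forall hQnn)]
    exact lintegral_congr_ae (ae_restrict_of_ae_restrict_of_subset Ioc_subset_Ioi_self hgae)
  have step2 : ∫⁻ t in Ioi X, ENNReal.ofReal (Sf (rf f) t / t ^ 2) =
      ∫⁻ r in Ioi (0 : ℝ), ENNReal.ofReal (1 / max X r) * g r := by
    have h1 : ∫⁻ t in Ioi X, ENNReal.ofReal (Sf (rf f) t / t ^ 2) =
        ∫⁻ t in Ioi X, ∫⁻ r in Ioi (0 : ℝ),
          (if r ≤ t then ENNReal.ofReal (1 / t ^ 2) * g r else 0) := by
      refine setLIntegral_congr_fun measurableSet_Ioi fun t ht => ?_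
      have ht0 : 0 < t := lt_trans hX ht
      have h2 : ENNReal.ofReal (Sf (rf f) t / t ^ 2) =
          ENNReal.ofReal (1 / t ^ 2) * ENNReal.ofReal (Sf (rf f) t) := by
        rw [← ENNReal.ofReal_mul (by positivity)]
        congr 1
        ring
      rw [h2, hSval t ht0.le, ← lintegral_const_mul _ hgm]
      have h3 : ∫⁻ r in Ioi (0 : ℝ), (if r ≤ t then ENNReal.ofReal (1 / t ^ 2) * g r else 0) =
          ∫⁻ r in Ioi (0 : ℝ), (Iic t).indicator (fun r => ENNReal.ofReal (1 / t ^ 2) * g r) r := by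
        refine lintegral_congr fun r => ?_
        by_cases h : r ≤ t
        · rw [if_pos h, indicator_of_mem (mem_Iic.mpr h)]
        · rw [if_neg h, indicator_of_notMem (fun h' => h (mem_Iic.mp h'))]
      rw [h3, lintegral_indicator measurableSet_Iic, Measure.restrict_restrict measurableSet_Iic]
      have h4 : Iic t ∩ Ioi 0 = Ioc 0 t := by ext y; simp [and_comm]
      rw [h4]
    rw [h1, lintegral_lintegral_swap]
    · refine setLIntegral_congr_fun measurableSet_Ioi fun r hr0 => ?_
      have hr0' : 0 < r := hr0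
      have hmax : 0 < max X r := lt_of_lt_of_le hX (le_max_left _ r)
      have h2 : ∫⁻ t in Ioi X, (if r ≤ t then ENNReal.ofReal (1 / t ^ 2) * g r else 0) =
          ∫⁻ t in Ioi X, (Ici r).indicator (fun t => ENNReal.ofReal (1 / t ^ 2) * g r) t := by
        refine lintegral_congr fun t => ?_
        by_cases h : r ≤ t
        · rw [if_pos h, indicator_of_mem (mem_Ici.mpr h)]
        · rw [if_neg h, indicator_of_notMem (fun h' => h (mem_Ici.mp h'))]
      rw [h2, lintegral_indicator measurableSet_Ici, Measure.restrict_restrict measurableSet_Ici,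
        lintegral_mul_const _ (by fun_prop)]
      congr 1
      have h3 : ∫⁻ t in Ici r ∩ Ioi X, ENNReal.ofReal (1 / t ^ 2) =
          ∫⁻ t in Ioi (max X r), ENNReal.ofReal (1 / t ^ 2) := by
        refine setLIntegral_congr ?_
        rcases lt_or_ge X r with h | h
        · have e1 : Ici r ∩ Ioi X = Ici r := by
            ext y
            simp only [mem_inter_iff, mem_Ici, mem_Ioi, and_iff_left_iff_imp]
            exact fun hy => lt_of_lt_of_le h hy
          rw [e1, max_eq_right h.le]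
          exact Ioi_ae_eq_Ici.symm
        · have e1 : Ici r ∩ Ioi X = Ioi X := by
            ext y
            simp only [mem_inter_iff, mem_Ici, mem_Ioi, and_iff_right_iff_imp]
            exact fun hy => (lt_of_le_of_lt h hy).le
          rw [e1, max_eq_left h]
      rw [h3]
      obtain ⟨i1, i2⟩ := inv_sq_Ioi (x := 0) le_rfl hmax
      simp only [zero_add] at i1 i2
      rw [← i2]
      exact (ofReal_integral_eq_lintegral_ofReal i1
        (Eventually.of_forall fun t => by simp only [Pi.zero_apply]; positivity)).symm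
    · refine Measurable.aemeasurable ?_
      refine Measurable.ite ?_ ?_ measurable_const
      · exact measurableSet_le measurable_snd measurable_fst
      · exact (by fun_prop : Measurable fun p : ℝ × ℝ => ENNReal.ofReal (1 / p.1 ^ 2)).mul
          (hgm.comp measurable_snd)
  -- finiteness
  have hfin : ∫⁻ r in Ioi (0 : ℝ), ENNReal.ofReal (1 / max X r) * g r < ∞ := by
    have h1 : ∫⁻ r in Ioi (0 : ℝ), ENNReal.ofReal (1 / max X r) * g r ≤
        ∫⁻ r in Ioi (0 : ℝ), ENNReal.ofReal (1 / X) * g r := by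
      refine lintegral_mono fun r => ?_
      gcongr
      exact le_max_left _ _
    rw [lintegral_const_mul _ hgm] at h1
    have h2 : ∫⁻ r in Ioi (0 : ℝ), g r = ENNReal.ofReal (∫ r in Ioi (0 : ℝ), Q r) := by
      rw [ofReal_integral_eq_lintegral_ofReal hQint (Eventually.of_forall hQnn)]
      exact (lintegral_congr_ae hgae).symm
    rw [h2] at h1
    exact lt_of_le_of_lt h1 (ENNReal.mul_lt_top ENNReal.ofReal_lt_top ENNReal.ofReal_lt_top)
  have hSnn : ∀ t ∈ Ioi X, 0 ≤ Sf (rf f) t / t ^ 2 := by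
    intro t ht
    have ht0 : 0 < t := lt_trans hX ht
    have : 0 ≤ ∫ τ in (0 : ℝ)..t, rf f τ ^ 2 :=
      intervalIntegral.integral_nonneg ht0.le fun τ _ => sq_nonneg _
    unfold Sf
    positivity
  have hum : AEStronglyMeasurable (fun y : E3 => ‖u y‖ ^ 2 / ‖x - y‖) volume := by
    have h1 : AEMeasurable (fun y : E3 => ‖u y‖ ^ 2 / ‖x - y‖) volume :=
      (hu.aestronglyMeasurable.norm.aemeasurable.pow_const 2).div
        (by fun_prop : Measurable fun y : E3 => ‖x - y‖).aemeasurable
    exact h1.aestronglyMeasurable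
  have hScont : ContinuousOn (Sf (rf f)) (Ici 0) := by
    have h1 : ContinuousOn (fun t => 4 * π * ((∫ τ in Ioi (0 : ℝ), rf f τ ^ 2) -
        ∫ τ in Ioi t, rf f τ ^ 2)) (Ici 0) :=
      continuousOn_const.mul (continuousOn_const.sub hqint.continuousOn_Ici_primitive_Ioi)
    refine h1.congr fun t ht => ?_
    show 4 * π * ∫ τ in (0 : ℝ)..t, rf f τ ^ 2 = 4 * π * ((∫ τ in Ioi (0 : ℝ), rf f τ ^ 2) -
      ∫ τ in Ioi t, rf f τ ^ 2)
    congr 1
    exact (intervalIntegral.integral_Ioi_sub_Ioi hqint ht).symm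
  have hSm : AEStronglyMeasurable (fun t => Sf (rf f) t / t ^ 2) (volume.restrict (Ioi X)) := by
    refine ContinuousOn.aestronglyMeasurable ?_ measurableSet_Ioi
    refine ContinuousOn.div (hScont.mono fun t ht => le_of_lt (lt_trans hX ht)) (by fun_prop)
      fun t ht => ?_
    have ht0 : 0 < t := lt_trans hX ht
    positivity
  have hnn1 : 0 ≤ᵐ[volume] fun y : E3 => ‖u y‖ ^ 2 / ‖x - y‖ :=
    Eventually.of_forall fun y => by simp only [Pi.zero_apply]; positivity
  have hnn2 : 0 ≤ᵐ[volume.restrict (Ioi X)] fun t => Sf (rf f) t / t ^ 2 :=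
    (ae_restrict_iff' measurableSet_Ioi).mpr (Eventually.of_forall hSnn)
  refine ⟨⟨hum, ?_⟩, ⟨hSm, ?_⟩, ?_⟩
  · rw [hasFiniteIntegral_iff_ofReal hnn1, step1]
    exact hfin
  · rw [hasFiniteIntegral_iff_ofReal hnn2, step2]
    exact hfin
  · unfold hartree
    rw [integral_eq_lintegral_of_nonneg_ae hnn1 hum, integral_eq_lintegral_of_nonneg_ae hnn2 hSm,
      step1, step2]

end Pool.Agent.H41.HM
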