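import Mathlib
import Pool.Agent.H99.HM.Targets

/-! # MP_6a9259_mp, modules POLAR, RADM -/

set_option autoImplicit false

namespace Pool.Agent.H41.HM

open MeasureTheory Set Filter Topology Real Pool.Agent.H99.HM

theorem vol_ball : (volume : Measure E3).real (Metric.ball 0 1) = 4 * π / 3 := by
  rw [Measure.real, EuclideanSpace.volume_ball_fin_three]
  rw [ENNReal.ofReal_one, one_pow, one_mul, ENNReal.toReal_ofReal (by positivity)]
  ring

theorem polar : T_polar := by
  have hfr : Module.finrank ℝ E3 = 3 := finrank_euclideanSpace_fin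
  constructor
  · intro F
    constructor
    · rw [integrable_fun_norm_addHaar (E := E3) volume (f := F), hfr]
      refine integrableOn_congr_fun (fun r _ => ?_) measurableSet_Ioi
      rw [Complex.real_smul]
      push_cast
      rfl
    · rw [integral_fun_norm_addHaar (E := E3) volume F, hfr, vol_ball]
      have h1 : ∫ y in Ioi (0 : ℝ), y ^ (3 - 1) • F y =
          ∫ r in Ioi (0 : ℝ), (r : ℂ) ^ 2 * F r := by
        refine setIntegral_congr_fun measurableSet_Ioi fun r _ => ?_
        simp only [Complex.real_smul]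
        push_cast
        rfl
      rw [h1, Complex.real_smul, nsmul_eq_mul]
      push_cast
      ring
  · intro F
    constructor
    · rw [integrable_fun_norm_addHaar (E := E3) volume (f := F), hfr]
      refine integrableOn_congr_fun (fun r _ => ?_) measurableSet_Ioi
      simp
    · rw [integral_fun_norm_addHaar (E := E3) volume F, hfr, vol_ball]
      have h1 : ∫ y in Ioi (0 : ℝ), y ^ (3 - 1) • F y =
          ∫ r in Ioi (0 : ℝ), r ^ 2 * F r := by
        refine setIntegral_congr_fun measurableSet_Ioi fun r _ => ?_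
        simp
      rw [h1, smul_eq_mul, nsmul_eq_mul]
      push_cast
      ring

theorem radm (hp : T_polar) : T_radm := by
  intro u f hu huf
  obtain ⟨hpc, hpr⟩ := hp
  -- measurability
  have hint : ∀ n : ℕ, IntegrableOn (fun r : ℝ => (r : ℂ) ^ 2 * (Iio (n : ℝ)).indicator f r)
      (Ioi 0) := by
    intro n
    rw [← (hpc _).1]
    have h1 : IntegrableOn u (Metric.ball 0 n) := by
      have : IsFiniteMeasure ((volume : Measure E3).restrict (Metric.ball 0 n)) :=
        ⟨by rw [Measure.restrict_apply_univ]; exact measure_ball_lt_top⟩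
      exact (hu.restrict _).integrable (by norm_num)
    have h2 : Integrable ((Metric.ball (0 : E3) n).indicator u) :=
      (integrable_indicator_iff measurableSet_ball).mpr h1
    refine h2.congr ?_
    filter_upwards [huf] with x hx
    by_cases h : ‖x‖ < n
    · rw [indicator_of_mem (by simpa using h), indicator_of_mem (show ‖x‖ ∈ Iio (n : ℝ) from h), hx]
    · rw [indicator_of_notMem (by simpa using h),
        indicator_of_notMem (show ‖x‖ ∉ Iio (n : ℝ) from h)]
  have hmeas2 : AEStronglyMeasurable (fun r : ℝ => (r : ℂ) ^ 2 * f r)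
      (volume.restrict (Ioi 0)) := by
    refine aestronglyMeasurable_of_tendsto_ae atTop (fun n => (hint n).aestronglyMeasurable) ?_
    refine Eventually.of_forall fun r => ?_
    refine tendsto_const_nhds.congr' ?_
    obtain ⟨N, hN⟩ := exists_nat_gt r
    filter_upwards [eventually_ge_atTop N] with n hn
    rw [indicator_of_mem]
    have : (N : ℝ) ≤ n := by exact_mod_cast hn
    exact lt_of_lt_of_le hN this
  have hmeas : AEStronglyMeasurable (fun r : ℝ => (r : ℂ) * f r) (volume.restrict (Ioi 0)) := by
    have h1 : AEStronglyMeasurable (fun r : ℝ => (r : ℂ)⁻¹ * ((r : ℂ) ^ 2 * f r))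
        (volume.restrict (Ioi 0)) := by
      refine AEStronglyMeasurable.mul ?_ hmeas2
      exact (Complex.measurable_ofReal.inv).aestronglyMeasurable
    refine h1.congr ?_
    refine (ae_restrict_iff' measurableSet_Ioi).mpr (Eventually.of_forall fun r hr => ?_)
    have hr0 : (r : ℂ) ≠ 0 := by
      have : 0 < r := hr
      exact_mod_cast this.ne'
    field_simp
  -- the squares
  have hsq : Integrable (fun x : E3 => ‖f ‖x‖‖ ^ 2) := by
    have h1 : Integrable (fun x => ‖u x‖ ^ 2) := hu.norm.integrable_sq
    refine h1.congr ?_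
    filter_upwards [huf] with x hx
    rw [hx]
  have hsq2 : IntegrableOn (fun r : ℝ => r ^ 2 * ‖f r‖ ^ 2) (Ioi 0) :=
    ((hpr fun r => ‖f r‖ ^ 2).1).mp hsq
  have hnorm : ∀ r : ℝ, ‖(r : ℂ) * f r‖ ^ 2 = r ^ 2 * ‖f r‖ ^ 2 := by
    intro r
    rw [norm_mul, Complex.norm_real, mul_pow, Real.norm_eq_abs, sq_abs]
  refine ⟨?_, ?_⟩
  · rw [← memLp_norm_iff hmeas, memLp_two_iff_integrable_sq hmeas.norm]
    simp only [hnorm]
    exact hsq2
  · unfold mass Mf rf
    have h1 : ∫ x, ‖u x‖ ^ 2 = ∫ x : E3, ‖f ‖x‖‖ ^ 2 := by
      refine integral_congr_ae ?_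
      filter_upwards [huf] with x hx
      rw [hx]
    rw [h1, (hpr fun r => ‖f r‖ ^ 2).2]
    congr 1
    refine setIntegral_congr_fun measurableSet_Ioi fun r _ => ?_
    simp only [hnorm]

end Pool.Agent.H41.HM
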