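import Mathlib
import Pool.Agent.H99.HM.Targets
import Pool.Agent.H41.HM.En

/-! # MP_6a9259_mp, module I3 -/

set_option autoImplicit false

namespace Pool.Agent.H41.HM

open MeasureTheory Set Filter Topology Real Pool.Agent.H99.HM

theorem Psi_bd {x ell : ℝ} {s r : ℝ → ℝ}
    (hint : IntegrableOn (fun t => (Sf r t - Sf s t) / (x + t) ^ 2) (Ioi 0)) :
    ∀ t, 0 < t → |Psi x ell s r t| ≤
      |ell| + ∫ τ in Ioi (0 : ℝ), |(Sf r τ - Sf s τ) / (x + τ) ^ 2| := by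
  intro t ht
  unfold Psi
  refine (abs_sub _ _).trans ?_
  have h1 : |∫ τ in Ioi t, (Sf r τ - Sf s τ) / (x + τ) ^ 2| ≤
      ∫ τ in Ioi t, |(Sf r τ - Sf s τ) / (x + τ) ^ 2| := by
    rw [← Real.norm_eq_abs]
    exact norm_integral_le_integral_norm _
  have h2 : ∫ τ in Ioi t, |(Sf r τ - Sf s τ) / (x + τ) ^ 2| ≤
      ∫ τ in Ioi (0 : ℝ), |(Sf r τ - Sf s τ) / (x + τ) ^ 2| :=
    setIntegral_mono_set hint.abs (Eventually.of_forall fun τ => abs_nonneg _)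
      (Eventually.of_forall fun τ hτ => lt_trans ht hτ)
  linarith

theorem i3 (hfacts : T_facts) (hdom : T_dom) (hW : T_W) (hV : T_V) : T_I3 := by
  intro x ell s s1 r r1 hs hr
  have fs := hfacts _ _ _ _ hs
  have fr := hfacts _ _ _ _ hr
  have hx0 := hs.x0
  obtain ⟨w1, w2, w3, w4, w5, w6, w7, w8, w9, w10⟩ := hW _ _ _ _ _ _ hs hr
  have hPb := Psi_bd (ell := ell) w1
  obtain ⟨s12, s13⟩ := Iw_int hdom hx0 fs 1 le_rfl
  obtain ⟨s22, s23⟩ := Iw_int hdom hx0 fs 2 (by norm_num)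
  obtain ⟨r12, r13⟩ := Iw_int hdom hx0 fr 1 le_rfl
  obtain ⟨r22, r23⟩ := Iw_int hdom hx0 fr 2 (by norm_num)
  have Ps2 : IntegrableOn (fun t => Psi x ell s r t * s t ^ 2) (Ioi 0) :=
    int_bdd_mul w3 hPb hs.int0
  have Pr2 : IntegrableOn (fun t => Psi x ell s r t * r t ^ 2) (Ioi 0) :=
    int_bdd_mul w3 hPb hr.int0
  have hsq : (fun t => Psi x ell s r t * (s t - r t) ^ 2) =
      fun t => (Psi x ell s r t * s t ^ 2 + Psi x ell s r t * r t ^ 2) -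
        2 * (Psi x ell s r t * (s t * r t)) := by
    ext t; ring
  have hPsr : IntegrableOn (fun t => Psi x ell s r t * (s t - r t) ^ 2) (Ioi 0) := by
    rw [hsq]
    exact (Ps2.add Pr2).sub (w9.const_mul 2)
  have hPsrI : ∫ t in Ioi (0 : ℝ), Psi x ell s r t * (s t - r t) ^ 2 =
      (∫ t in Ioi (0 : ℝ), Psi x ell s r t * s t ^ 2) +
        ∫ t in Ioi (0 : ℝ), Psi x ell s r t * r t ^ 2 := by
    have e1 : ∫ t in Ioi (0 : ℝ), ((Psi x ell s r t * s t ^ 2 + Psi x ell s r t * r t ^ 2) -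
        2 * (Psi x ell s r t * (s t * r t))) =
        (∫ t in Ioi (0 : ℝ), (Psi x ell s r t * s t ^ 2 + Psi x ell s r t * r t ^ 2)) -
        ∫ t in Ioi (0 : ℝ), 2 * (Psi x ell s r t * (s t * r t)) :=
      integral_sub (Ps2.add Pr2) (w9.const_mul 2)
    rw [hsq, e1, integral_add Ps2 Pr2, integral_const_mul, w10]
    ring
  have hsplit : ∀ t ∈ Ioi (0 : ℝ), (1 / (x + t) ^ 2 + 2 * x / (x + t) ^ 3) *
      ((Sf r t - Sf s t) * (1 - (Sf r t + Sf s t) / 2)) =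
      ((Sf r t ^ 1 / (x + t) ^ 2 - Sf s t ^ 1 / (x + t) ^ 2) -
        1 / 2 * (Sf r t ^ 2 / (x + t) ^ 2 - Sf s t ^ 2 / (x + t) ^ 2)) +
      (2 * x * (Sf r t ^ 1 / (x + t) ^ 3 - Sf s t ^ 1 / (x + t) ^ 3) -
        x * (Sf r t ^ 2 / (x + t) ^ 3 - Sf s t ^ 2 / (x + t) ^ 3)) := by
    intro t ht
    have ht0 : 0 < t := ht
    have hxt : x + t ≠ 0 := by linarith
    field_simp
    ring
  have A1 : IntegrableOn (fun t => (Sf r t ^ 1 / (x + t) ^ 2 - Sf s t ^ 1 / (x + t) ^ 2) -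
        1 / 2 * (Sf r t ^ 2 / (x + t) ^ 2 - Sf s t ^ 2 / (x + t) ^ 2)) (Ioi 0) :=
    (r12.sub s12).sub ((r22.sub s22).const_mul _)
  have A2 : IntegrableOn (fun t => 2 * x * (Sf r t ^ 1 / (x + t) ^ 3 - Sf s t ^ 1 / (x + t) ^ 3) -
        x * (Sf r t ^ 2 / (x + t) ^ 3 - Sf s t ^ 2 / (x + t) ^ 3)) (Ioi 0) :=
    ((r13.sub s13).const_mul _).sub ((r23.sub s23).const_mul _)
  have I1 : ∫ t in Ioi (0 : ℝ), ((Sf r t ^ 1 / (x + t) ^ 2 - Sf s t ^ 1 / (x + t) ^ 2) -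
        1 / 2 * (Sf r t ^ 2 / (x + t) ^ 2 - Sf s t ^ 2 / (x + t) ^ 2)) =
      (Iw 1 2 x r - Iw 1 2 x s) - 1 / 2 * (Iw 2 2 x r - Iw 2 2 x s) := by
    have e1 : ∫ t in Ioi (0 : ℝ), ((Sf r t ^ 1 / (x + t) ^ 2 - Sf s t ^ 1 / (x + t) ^ 2) -
        1 / 2 * (Sf r t ^ 2 / (x + t) ^ 2 - Sf s t ^ 2 / (x + t) ^ 2)) =
        (∫ t in Ioi (0 : ℝ), (Sf r t ^ 1 / (x + t) ^ 2 - Sf s t ^ 1 / (x + t) ^ 2)) -
        ∫ t in Ioi (0 : ℝ), 1 / 2 * (Sf r t ^ 2 / (x + t) ^ 2 - Sf s t ^ 2 / (x + t) ^ 2) :=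
      integral_sub (r12.sub s12) ((r22.sub s22).const_mul _)
    rw [e1, integral_const_mul, integral_sub r12 s12, integral_sub r22 s22]
    rfl
  have I2 : ∫ t in Ioi (0 : ℝ), (2 * x * (Sf r t ^ 1 / (x + t) ^ 3 - Sf s t ^ 1 / (x + t) ^ 3) -
        x * (Sf r t ^ 2 / (x + t) ^ 3 - Sf s t ^ 2 / (x + t) ^ 3)) =
      2 * x * (Iw 1 3 x r - Iw 1 3 x s) - x * (Iw 2 3 x r - Iw 2 3 x s) := by
    have e1 : ∫ t in Ioi (0 : ℝ), (2 * x * (Sf r t ^ 1 / (x + t) ^ 3 - Sf s t ^ 1 / (x + t) ^ 3) -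
        x * (Sf r t ^ 2 / (x + t) ^ 3 - Sf s t ^ 2 / (x + t) ^ 3)) =
        (∫ t in Ioi (0 : ℝ), 2 * x * (Sf r t ^ 1 / (x + t) ^ 3 - Sf s t ^ 1 / (x + t) ^ 3)) -
        ∫ t in Ioi (0 : ℝ), x * (Sf r t ^ 2 / (x + t) ^ 3 - Sf s t ^ 2 / (x + t) ^ 3) :=
      integral_sub ((r13.sub s13).const_mul _) ((r23.sub s23).const_mul _)
    rw [e1, integral_const_mul, integral_const_mul, integral_sub r13 s13, integral_sub r23 s23]
    rfl
  -- integration by parts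
  let G : ℝ → ℝ := fun t => Psi x ell s r t * (Sf r t + Sf s t)
  have hGder : ∀ t ∈ Ioi (0 : ℝ), HasDerivAt G
      ((Sf r t ^ 2 / (x + t) ^ 2 - Sf s t ^ 2 / (x + t) ^ 2) +
        4 * π * (Psi x ell s r t * s t ^ 2 + Psi x ell s r t * r t ^ 2)) t := by
    intro t ht
    have ht0 : 0 < t := ht
    have d1 : HasDerivAt (fun t => Sf r t + Sf s t) (4 * π * r t ^ 2 + 4 * π * s t ^ 2) t :=
      (fr.Sder t ht0).add (fs.Sder t ht0)
    refine HasDerivAt.congr_deriv ((w5 t ht0).mul d1) ?_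
    ring
  have hGcont : ContinuousWithinAt G (Ici 0) 0 :=
    (w3 0 self_mem_Ici).mul ((fr.Scont 0 self_mem_Ici).add (fs.Scont 0 self_mem_Ici))
  have hGlim : Tendsto G atTop (𝓝 (ell * (Mf r + Mf s))) := w4.mul (fr.Slim.add fs.Slim)
  have B1 : IntegrableOn (fun t => Sf r t ^ 2 / (x + t) ^ 2 - Sf s t ^ 2 / (x + t) ^ 2) (Ioi 0) :=
    r22.sub s22
  have B2 : IntegrableOn (fun t => 4 * π * (Psi x ell s r t * s t ^ 2 +
      Psi x ell s r t * r t ^ 2)) (Ioi 0) := (Ps2.add Pr2).const_mul _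
  have hI := integral_Ioi_of_hasDerivAt_of_tendsto hGcont hGder (B1.add B2) hGlim
  rw [integral_add B1 B2, integral_const_mul, integral_add Ps2 Pr2, ← hPsrI,
    integral_sub r22 s22] at hI
  have hG0 : G 0 = 0 := by
    simp only [G]
    rw [fs.S0, fr.S0]
    ring
  rw [hG0, sub_zero] at hI
  have hI' : Iw 2 2 x r - Iw 2 2 x s +
      4 * π * ∫ t in Ioi (0 : ℝ), Psi x ell s r t * (s t - r t) ^ 2 = ell * (Mf r + Mf s) := hI
  have hVr := hV _ _ _ _ hr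
  have hVs := hV _ _ _ _ hs
  refine ⟨?_, hPsr, ?_⟩
  · exact (A1.add A2).congr_fun (fun t ht => (hsplit t ht).symm) measurableSet_Ioi
  · rw [setIntegral_congr_fun measurableSet_Ioi hsplit, integral_add A1 A2, I1, I2]
    linarith

end Pool.Agent.H41.HM
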